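import Mathlib

set_option autoImplicit false

/-! ROW MC10 L1 (MEDIUM, Mathlib only). Complete Nakayama for modules over k[[X]].
PLAN. Iterate hfin with choice: functions c : M → Fin n → k and r : M → M with m = ∑ C (c m i) • v i + X • r m.
Put m_0 = m, m_{j+1} = r m_j, and let F i : PowerSeries k := PowerSeries.mk (fun j => c (m_j) i).
Induction on K:  m = ∑ i, (∑ j < K, C (c (m_j) i) * X^j) • v i + X^K • m_K.
F i = (∑ j < K, C (coeff) * X^j) + X^K * (tail) (PowerSeries.eq_shift..., or X_pow_dvd_iff applied to F i - trunc), so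
m - ∑ F i • v i = X^K • (m_K - ∑ tail_i • v i) for every K, hence it is 0 by hsep. So M is spanned by the v i
(Module.Finite, Submodule.fg_def / span of Set.range v = ⊤). -/

namespace Pool.Agent.LibMC10

theorem finite_of_separated {k : Type*} [Field k] {M : Type*} [AddCommGroup M] [Module (PowerSeries k) M]
    (hsep : ∀ m : M, (∀ K : ℕ, ∃ m' : M, m = (PowerSeries.X ^ K : PowerSeries k) • m') → m = 0)
    {n : ℕ} (v : Fin n → M)
    (hfin : ∀ m : M, ∃ (c : Fin n → k) (m' : M),
      m = ∑ i, (PowerSeries.C (c i) : PowerSeries k) • v i + (PowerSeries.X : PowerSeries k) • m') :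
    Module.Finite (PowerSeries k) M := by
  classical
  choose c r hr using hfin
  obtain ⟨F, hFdef⟩ : ∃ F : M → Fin n → PowerSeries k,
      ∀ m i, F m i = PowerSeries.mk fun j => c (r^[j] m) i := ⟨_, fun m i => rfl⟩
  have hF : ∀ m i, F m i = PowerSeries.C (c m i) + PowerSeries.X * F (r m) i := by
    intro m i
    rw [hFdef, hFdef]
    ext j
    cases j with
    | zero => simp
    | succ j =>
      rw [map_add, PowerSeries.coeff_succ_X_mul, PowerSeries.coeff_mk, PowerSeries.coeff_mk,
        PowerSeries.coeff_C, if_neg (Nat.succ_ne_zero j), zero_add,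
        Function.iterate_succ_apply]
  obtain ⟨D, hDdef⟩ : ∃ D : M → M, ∀ m, D m = m - ∑ i, F m i • v i := ⟨_, fun m => rfl⟩
  have hD : ∀ m, D m = (PowerSeries.X : PowerSeries k) • D (r m) := by
    intro m
    have h1 : ∑ i, F m i • v i = ∑ i, (PowerSeries.C (c m i) : PowerSeries k) • v i +
        (PowerSeries.X : PowerSeries k) • ∑ i, F (r m) i • v i := by
      rw [Finset.smul_sum, ← Finset.sum_add_distrib]
      refine Finset.sum_congr rfl fun i _ => ?_
      rw [hF m i, add_smul, mul_smul]
    have h2 := hr m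
    rw [hDdef, hDdef, smul_sub, h1]
    calc m - (∑ i, (PowerSeries.C (c m i) : PowerSeries k) • v i +
          (PowerSeries.X : PowerSeries k) • ∑ i, F (r m) i • v i)
        = (∑ i, (PowerSeries.C (c m i) : PowerSeries k) • v i +
            (PowerSeries.X : PowerSeries k) • r m) -
          (∑ i, (PowerSeries.C (c m i) : PowerSeries k) • v i +
          (PowerSeries.X : PowerSeries k) • ∑ i, F (r m) i • v i) := by rw [← h2]
      _ = (PowerSeries.X : PowerSeries k) • r m -
          (PowerSeries.X : PowerSeries k) • ∑ i, F (r m) i • v i := by abel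
  have hK : ∀ (K : ℕ) (m : M), D m = (PowerSeries.X ^ K : PowerSeries k) • D (r^[K] m) := by
    intro K
    induction K with
    | zero => intro m; simp
    | succ K ih =>
      intro m
      rw [hD m, ih (r m), smul_smul, ← pow_succ', Function.iterate_succ_apply]
  have h0 : ∀ m, D m = 0 := fun m => hsep (D m) fun K => ⟨_, hK K m⟩
  rw [Module.finite_def, Submodule.fg_def]
  refine ⟨Set.range v, Set.finite_range v, ?_⟩
  rw [eq_top_iff]
  intro m _
  have h3 := h0 m
  rw [hDdef, sub_eq_zero] at h3
  rw [h3]
  exact Submodule.sum_mem _ fun i _ =>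
    Submodule.smul_mem _ _ (Submodule.subset_span (Set.mem_range_self i))

end Pool.Agent.LibMC10
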