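import Mathlib

set_option autoImplicit false

/-! ROW MC10 L2 (MEDIUM, Mathlib only). A k-derivation of a quotient of k[[y]] is determined by the values at the variables.
PLAN. Let m = maximalIdeal of R = MvPowerSeries σ k (local ring), D is a Noetherian local domain (quotient of R by π).
E : R → D, E f = δ (π f) - ∑ j, π (∂_j f) * δ (π (X j)) is additive, k-linear and satisfies E (f g) = π f * E g + π g * E f
(Leibniz for both parts) and E (X j) = 0, E (C a) = 0; so E vanishes on the image of MvPolynomial σ k
(MvPolynomial.induction_on). Every f is (truncation, a polynomial) + r with r in (ideal of the variables)^K for every K: the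
ideal of the variables is m (constantCoeff f = 0 iff f ∈ span of the X j); use MvPowerSeries.truncTotal / trunc' or any lemma,
for instance: f - trunc has order ≥ K, and a power series of order ≥ K lies in (span of X j)^K (finitely many monomials of
degree K: f = ∑_{|e| = K} X^e * f_e). E maps m^(K+1) into (ideal generated by π m)^K (Leibniz, Submodule.pow_induction_on
or induction on K with Ideal.mul / span_induction). So E f ∈ ⨅ K, (m.map π)^K = ⊥ (Krull: Ideal.iInf_pow_eq_bot_of_isDomain,
m.map π ≠ ⊤ because D is local/nontrivial and π surjective: 1 in the image of m would give 1 = π a, a ∈ m, so 1 - a is a unit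
killed by π). -/

namespace Pool.Agent.LibMC10

private theorem L2_span {k : Type*} [Field k] {σ : Type*} (T : Finset σ) :
    ∀ f : MvPowerSeries σ k, (∀ e, MvPowerSeries.coeff e f ≠ 0 → ∃ j ∈ T, e j ≠ 0) →
      f ∈ Ideal.span (Set.range (MvPowerSeries.X : σ → MvPowerSeries σ k)) := by
  classical
  induction T using Finset.induction_on with
  | empty =>
    intro f h
    have h0 : f = 0 := by
      ext e
      by_contra h1
      rw [MvPowerSeries.coeff_zero] at h1
      obtain ⟨j, hj, _⟩ := h e h1
      exact absurd hj (Finset.notMem_empty j)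
    rw [h0]
    exact zero_mem _
  | insert j T hj ih =>
    intro f h
    obtain ⟨f1, hc⟩ : ∃ f1 : MvPowerSeries σ k, ∀ e, MvPowerSeries.coeff e f1 =
        if e j = 0 then MvPowerSeries.coeff e f else 0 :=
      ⟨fun e => if e j = 0 then MvPowerSeries.coeff e f else 0, fun e => rfl⟩
    have h1 : f1 ∈ Ideal.span (Set.range (MvPowerSeries.X : σ → MvPowerSeries σ k)) := by
      apply ih
      intro e he
      rw [hc] at he
      by_cases h2 : e j = 0
      · rw [if_pos h2] at he
        obtain ⟨i, hi, hi'⟩ := h e he
        rcases Finset.mem_insert.1 hi with h3 | h3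
        · rw [h3] at hi'
          exact absurd h2 hi'
        · exact ⟨i, h3, hi'⟩
      · rw [if_neg h2] at he
        exact absurd rfl he
    have h2 : (MvPowerSeries.X j : MvPowerSeries σ k) ∣ f - f1 := by
      rw [MvPowerSeries.X_dvd_iff]
      intro e he
      rw [map_sub, hc, if_pos he, sub_self]
    obtain ⟨g, hg⟩ := h2
    have h3 : f = f1 + MvPowerSeries.X j * g := by
      rw [← hg]
      ring
    rw [h3]
    exact Ideal.add_mem _ h1 (Ideal.mul_mem_right _ _ (Ideal.subset_span ⟨j, rfl⟩))

private theorem L2_mem {k : Type*} [Field k] {σ : Type*} [Fintype σ] (f : MvPowerSeries σ k) :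
    f - MvPowerSeries.C (MvPowerSeries.constantCoeff f) ∈
      Ideal.span (Set.range (MvPowerSeries.X : σ → MvPowerSeries σ k)) := by
  classical
  apply L2_span Finset.univ
  intro e he
  by_contra h
  push Not at h
  apply he
  have h1 : e = 0 := by
    ext j
    exact h j (Finset.mem_univ j)
  rw [h1, MvPowerSeries.coeff_zero_eq_constantCoeff, map_sub, MvPowerSeries.constantCoeff_C,
    sub_self]

theorem deriv_eq {k : Type*} [Field k] {σ : Type*} [Fintype σ] {D : Type*} [CommRing D] [IsDomain D] [Algebra k D]
    (π : MvPowerSeries σ k →ₐ[k] D) (hπ : Function.Surjective π) (δ : Derivation k D D)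
    (f : MvPowerSeries σ k) :
    δ (π f) = ∑ j, π (MvPowerSeries.pderiv k j f) * δ (π (MvPowerSeries.X j)) := by
  classical
  have : IsNoetherianRing D := isNoetherianRing_of_surjective (MvPowerSeries σ k) D π.toRingHom hπ
  obtain ⟨E, hE⟩ : ∃ E : MvPowerSeries σ k → D, ∀ f, E f = δ (π f) -
      ∑ j, π (MvPowerSeries.pderiv k j f) * δ (π (MvPowerSeries.X j)) := ⟨_, fun f => rfl⟩
  have hadd : ∀ f g, E (f + g) = E f + E g := by
    intro f g
    simp only [hE, map_add, add_mul, Finset.sum_add_distrib]
    ring
  have hmul : ∀ f g, E (f * g) = π f * E g + π g * E f := by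
    intro f g
    have h1 : ∀ j, π (MvPowerSeries.pderiv k j (f * g)) * δ (π (MvPowerSeries.X j)) =
        π f * (π (MvPowerSeries.pderiv k j g) * δ (π (MvPowerSeries.X j))) +
        π g * (π (MvPowerSeries.pderiv k j f) * δ (π (MvPowerSeries.X j))) := by
      intro j
      rw [Derivation.leibniz, smul_eq_mul, smul_eq_mul, map_add, map_mul, map_mul]
      ring
    rw [hE, hE, hE, Finset.sum_congr rfl fun j _ => h1 j, Finset.sum_add_distrib,
      ← Finset.mul_sum, ← Finset.mul_sum, map_mul, Derivation.leibniz, smul_eq_mul, smul_eq_mul]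
    ring
  have hC : ∀ c : k, E (MvPowerSeries.C c) = 0 := by
    intro c
    have h1 : π (MvPowerSeries.C c) = algebraMap k D c := by
      rw [MvPowerSeries.c_eq_algebraMap]
      exact π.commutes c
    rw [hE, h1, Derivation.map_algebraMap, zero_sub, neg_eq_zero]
    refine Finset.sum_eq_zero fun j _ => ?_
    rw [MvPowerSeries.pderiv_C, map_zero, zero_mul]
  have hX : ∀ i, E (MvPowerSeries.X i) = 0 := by
    intro i
    rw [hE, Finset.sum_eq_single i, MvPowerSeries.pderiv_X_self, map_one, one_mul, sub_self]
    · intro j _ hj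
      rw [MvPowerSeries.pderiv_X_of_ne (Ne.symm hj), map_zero, zero_mul]
    · intro h
      exact absurd (Finset.mem_univ _) h
  obtain ⟨I, hIdef⟩ : ∃ I : Ideal D, I = Ideal.span (Set.range fun j => π (MvPowerSeries.X j)) :=
    ⟨_, rfl⟩
  have hI : ∀ g ∈ Ideal.span (Set.range (MvPowerSeries.X : σ → MvPowerSeries σ k)), π g ∈ I := by
    intro g hg
    have h1 : Ideal.span (Set.range (MvPowerSeries.X : σ → MvPowerSeries σ k)) ≤
        I.comap (π : MvPowerSeries σ k →+* D) := by
      rw [Ideal.span_le]
      rintro _ ⟨j, rfl⟩
      rw [hIdef]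
      exact Ideal.subset_span ⟨j, rfl⟩
    exact h1 hg
  have h0 : E 0 = 0 := by
    have h1 := hC 0
    rw [map_zero] at h1
    exact h1
  have hcl : ∀ N : ℕ, ∀ f, E f ∈ I ^ N := by
    intro N
    induction N with
    | zero =>
      intro f
      rw [pow_zero, Ideal.one_eq_top]
      exact Submodule.mem_top
    | succ N ih =>
      have h1 : ∀ g ∈ Ideal.span (Set.range (MvPowerSeries.X : σ → MvPowerSeries σ k)),
          E g ∈ I ^ (N + 1) := by
        intro g hg
        induction hg using Submodule.span_induction with
        | mem g hg =>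
          obtain ⟨j, rfl⟩ := hg
          rw [hX]
          exact zero_mem _
        | zero =>
          rw [h0]
          exact zero_mem _
        | add x y _ _ hx hy =>
          rw [hadd]
          exact add_mem hx hy
        | smul r x hx hx' =>
          rw [smul_eq_mul, hmul]
          refine add_mem (Ideal.mul_mem_left _ _ hx') ?_
          rw [pow_succ']
          exact Ideal.mul_mem_mul (hI x hx) (ih r)
      intro f
      have h2 : f = MvPowerSeries.C (MvPowerSeries.constantCoeff f) +
          (f - MvPowerSeries.C (MvPowerSeries.constantCoeff f)) := by ring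
      rw [h2, hadd, hC, zero_add]
      exact h1 _ (L2_mem f)
  have hne : I ≠ ⊤ := by
    intro htop
    have h1 : (1 : D) ∈ (Ideal.span (Set.range (MvPowerSeries.X : σ → MvPowerSeries σ k))).map
        (π : MvPowerSeries σ k →+* D) := by
      have h2 : I ≤ (Ideal.span (Set.range (MvPowerSeries.X : σ → MvPowerSeries σ k))).map
          (π : MvPowerSeries σ k →+* D) := by
        rw [hIdef, Ideal.span_le]
        rintro _ ⟨j, rfl⟩
        exact Ideal.mem_map_of_mem (π : MvPowerSeries σ k →+* D) (Ideal.subset_span ⟨j, rfl⟩)
      apply h2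
      rw [htop]
      exact Submodule.mem_top
    obtain ⟨a, ha, ha1⟩ := (Ideal.mem_map_iff_of_surjective (π : MvPowerSeries σ k →+* D) hπ).1 h1
    have h3 : MvPowerSeries.constantCoeff a = 0 := by
      have h4 : Ideal.span (Set.range (MvPowerSeries.X : σ → MvPowerSeries σ k)) ≤
          RingHom.ker (MvPowerSeries.constantCoeff : MvPowerSeries σ k →+* k) := by
        rw [Ideal.span_le]
        rintro _ ⟨j, rfl⟩
        exact MvPowerSeries.constantCoeff_X j
      exact h4 ha
    have h5 : IsUnit (1 - a) := by
      rw [MvPowerSeries.isUnit_iff_constantCoeff, map_sub, map_one, h3, sub_zero]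
      exact isUnit_one
    have h6 : IsUnit (π (1 - a)) := h5.map π
    have h7 : π (1 - a) = 0 := by
      rw [map_sub, map_one]
      have h8 : π a = 1 := ha1
      rw [h8, sub_self]
    rw [h7] at h6
    exact not_isUnit_zero h6
  have hfin : E f = 0 := by
    have h1 : E f ∈ ⨅ N : ℕ, I ^ N := by
      rw [Ideal.mem_iInf]
      intro N
      exact hcl N f
    rw [Ideal.iInf_pow_eq_bot_of_isDomain I hne] at h1
    exact (Submodule.mem_bot D).1 h1
  rw [hE] at hfin
  exact sub_eq_zero.1 hfin

end Pool.Agent.LibMC10
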