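import Mathlib

set_option autoImplicit false

/-! ROW MC10 L3 (MEDIUM, Mathlib only). A prime ideal maximal among those not containing g has dimension one.
PLAN. The set {p | p prime, J ≤ p, g ∉ p} is nonempty; take a maximal element p (Noetherian: set_has_maximal_iff_noetherian).
So every prime Q > p contains g. CLAIM: the maximal ideal m is the only prime containing I := p ⊔ span {g}.
Suppose not; then m is not a minimal prime of I (a prime Q ≠ m over I contains a minimal one, and m is not minimal because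
Q < m), so m is not contained in any of the finitely many minimal primes of I (Ideal.finite_minimalPrimes_of_isNoetherianRing), and prime
avoidance (Ideal.subset_union_prime_finite or subset_union_prime) gives y ∈ m outside all of them; y ∉ p. Take a minimal
prime Q' of p ⊔ span {y} (Q' ≤ m exists by Ideal.exists_minimalPrimes_le). Q' ≠ p, so g ∈ Q'. Q' contains a minimal prime Q1
of I; p < Q1 ≤ Q' (g ∉ p). In the domain R ⧸ p the ideal Q'/p is minimal over the principal ideal (y), so its height is ≤ 1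
(Ideal.height_le_one_of_isPrincipal_of_mem_minimalPrimes), so Q1 < Q' is impossible (the chain ⊥ < Q1/p < Q'/p has length 2:
Ideal.height_bot..., or use Ideal.primeHeight / mem_minimalPrimes). Hence Q1 = Q' contains y, contradiction.
So the radical of I is m, and m^K ≤ I (Ideal.exists_radical_pow_le_of_fg, Ideal.radical_eq_sInf). -/

namespace Pool.Agent.LibMC10

open IsLocalRing

private theorem L3_domain {A : Type*} [CommRing A] [IsDomain A] [IsNoetherianRing A] [IsLocalRing A] (g : A)
    (hg : g ∈ maximalIdeal A) (hg0 : g ≠ 0) (H : ∀ Q : Ideal A, Q.IsPrime → Q ≠ ⊥ → g ∈ Q) :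
    ∃ K : ℕ, maximalIdeal A ^ K ≤ Ideal.span {g} := by
  have hIm : Ideal.span {g} ≤ maximalIdeal A := by
    rw [Ideal.span_le]
    simpa using hg
  have hmin : maximalIdeal A ∈ (Ideal.span {g}).minimalPrimes := by
    by_contra hcon
    have hfin := Ideal.finite_minimalPrimes_of_isNoetherianRing A (Ideal.span {g})
    have h1 : ¬ ((maximalIdeal A : Set A) ⊆ ⋃ i ∈ (Ideal.span {g}).minimalPrimes, (i : Set A)) := by
      rw [Ideal.subset_union_prime_finite (f := fun i : Ideal A => i) hfin ⊥ ⊥ (fun i hi _ _ => hi.isPrime)]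
      rintro ⟨P, hP, hle⟩
      apply hcon
      have h2 : P = maximalIdeal A :=
        le_antisymm (le_maximalIdeal hP.isPrime.ne_top) hle
      rwa [← h2]
    rw [Set.not_subset] at h1
    obtain ⟨y, hy, hyn⟩ := h1
    have hyP : ∀ P ∈ (Ideal.span {g}).minimalPrimes, y ∉ P := by
      intro P hP hyP
      apply hyn
      simp only [Set.mem_iUnion]
      exact ⟨P, hP, hyP⟩
    obtain ⟨P0, hP0, -⟩ := Ideal.exists_minimalPrimes_le hIm
    have hy0 : y ≠ 0 := by
      rintro rfl
      exact hyP P0 hP0 P0.zero_mem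
    have hym : Ideal.span {y} ≤ maximalIdeal A := by
      rw [Ideal.span_le]
      simpa using hy
    obtain ⟨Q, hQ, -⟩ := Ideal.exists_minimalPrimes_le hym
    have hQp : Q.IsPrime := hQ.isPrime
    have hyQ : y ∈ Q := hQ.le (Ideal.mem_span_singleton_self y)
    have hQ0 : Q ≠ ⊥ := by
      rintro rfl
      exact hy0 (by simpa using hyQ)
    have hgQ : Ideal.span {g} ≤ Q := by
      rw [Ideal.span_le]
      simpa using H Q hQp hQ0
    obtain ⟨P, hP, hPQ⟩ := Ideal.exists_minimalPrimes_le hgQ
    have hPp : P.IsPrime := hP.isPrime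
    have hlt : P < Q := by
      refine lt_of_le_of_ne hPQ ?_
      rintro rfl
      exact hyP _ hP hyQ
    have hbot : (⊥ : Ideal A) < P := by
      rw [bot_lt_iff_ne_bot]
      rintro rfl
      exact hg0 (by simpa using hP.le (Ideal.mem_span_singleton_self g))
    have hle1 : Q.height ≤ 1 :=
      Ideal.height_le_one_of_isPrincipal_of_mem_minimalPrimes (Ideal.span {y}) Q hQ
    have : Q.FiniteHeight := ⟨Or.inr (hle1.trans_lt (WithTop.coe_lt_top 1)).ne⟩
    have h3 : P.height < Q.height := Ideal.height_strict_mono_of_isPrime_of_isPrime hlt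
    have h4 : P.height < 1 := h3.trans_le hle1
    have : P.FiniteHeight := ⟨Or.inr (h4.trans (WithTop.coe_lt_top 1)).ne⟩
    have hbp : (⊥ : Ideal A).IsPrime := Ideal.isPrime_bot
    have h5 : (⊥ : Ideal A).height < P.height := Ideal.height_strict_mono_of_isPrime_of_isPrime hbot
    rw [Order.lt_one_iff] at h4
    rw [h4] at h5
    exact not_lt_bot h5
  have hrad : maximalIdeal A ≤ (Ideal.span {g}).radical := by
    rw [Ideal.radical_eq_sInf]
    refine le_sInf ?_
    rintro Q ⟨hIQ, hQp⟩
    exact hmin.2 ⟨hQp, hIQ⟩ (le_maximalIdeal hQp.ne_top)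
  exact Ideal.exists_pow_le_of_le_radical_of_fg hrad (IsNoetherian.noetherian _)

theorem exists_curve {R : Type*} [CommRing R] [IsNoetherianRing R] [IsLocalRing R] (g : R)
    (hg : g ∈ maximalIdeal R) (J : Ideal R) (p₀ : Ideal R) (hp₀ : p₀.IsPrime) (hJ : J ≤ p₀) (h : g ∉ p₀) :
    ∃ p : Ideal R, p.IsPrime ∧ J ≤ p ∧ g ∉ p ∧ ∃ K : ℕ, maximalIdeal R ^ K ≤ p ⊔ Ideal.span {g} := by
  obtain ⟨p, ⟨hp, hJp, hgp⟩, hmax⟩ := set_has_maximal_iff_noetherian.2 (inferInstance : IsNoetherian R R)
    {p : Ideal R | p.IsPrime ∧ J ≤ p ∧ g ∉ p} ⟨p₀, hp₀, hJ, h⟩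
  refine ⟨p, hp, hJp, hgp, ?_⟩
  have hloc : IsLocalRing (R ⧸ p) :=
    IsLocalRing.of_surjective' (Ideal.Quotient.mk p) Ideal.Quotient.mk_surjective
  have hcm : (maximalIdeal (R ⧸ p)).comap (Ideal.Quotient.mk p) = maximalIdeal R := by
    have h1 : ((maximalIdeal (R ⧸ p)).comap (Ideal.Quotient.mk p)).IsMaximal :=
      Ideal.comap_isMaximal_of_surjective _ Ideal.Quotient.mk_surjective
    exact IsLocalRing.eq_maximalIdeal h1
  have hmap : (maximalIdeal R).map (Ideal.Quotient.mk p) ≤ maximalIdeal (R ⧸ p) := by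
    rw [Ideal.map_le_iff_le_comap, hcm]
  obtain ⟨K, hK⟩ := L3_domain (A := R ⧸ p) (Ideal.Quotient.mk p g)
    (hmap (Ideal.mem_map_of_mem _ hg)) (by rwa [Ne, Ideal.Quotient.eq_zero_iff_mem]) (by
      intro Q hQ hQ0
      by_contra hgQ
      have hQc : (Q.comap (Ideal.Quotient.mk p)).IsPrime := hQ.comap _
      have hlt : p < Q.comap (Ideal.Quotient.mk p) := by
        have hle : p ≤ Q.comap (Ideal.Quotient.mk p) := by
          intro x hx
          rw [Ideal.mem_comap, Ideal.Quotient.eq_zero_iff_mem.2 hx]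
          exact Q.zero_mem
        refine lt_of_le_of_ne hle ?_
        intro heq
        apply hQ0
        rw [eq_bot_iff]
        intro z hz
        obtain ⟨x, rfl⟩ := Ideal.Quotient.mk_surjective z
        have hx : x ∈ Q.comap (Ideal.Quotient.mk p) := hz
        rw [← heq] at hx
        rw [Ideal.Quotient.eq_zero_iff_mem.2 hx]
        exact Submodule.zero_mem _
      exact hmax _ ⟨hQc, hJp.trans hlt.le, hgQ⟩ hlt)
  refine ⟨K, ?_⟩
  have h2 : ((maximalIdeal R) ^ K).map (Ideal.Quotient.mk p) ≤ (Ideal.span {g}).map (Ideal.Quotient.mk p) := by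
    rw [Ideal.map_pow, Ideal.map_span, Set.image_singleton]
    exact (Ideal.pow_right_mono hmap K).trans hK
  rw [Ideal.map_le_iff_le_comap, Ideal.comap_map_of_surjective _ Ideal.Quotient.mk_surjective,
    ← RingHom.ker_eq_comap_bot, Ideal.mk_ker, sup_comm] at h2
  exact h2

end Pool.Agent.LibMC10
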