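import Pool.Agent.LibMC10.L1

set_option autoImplicit false

/-! ROW MC10 L4 (MEDIUM; uses L1). If m^K ≤ p + (g) then k[[y]]/p is finite over k[[X]], X acting as g.
PLAN. ψ : PowerSeries k →ₐ[k] MvPowerSeries σ k is the substitution X ↦ g (PowerSeries.substAlgHom (HasSubst of constant
coefficient 0)), ψ X = g. Let φ = (mk p).comp ψ, algebra structure φ.toRingHom.toAlgebra on D = R ⧸ p. Apply L1 to M = D with
v = the classes of the monomials of degree < K (finitely many: equip them with an enumeration by Fin n, e.g. finite set of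
σ →₀ ℕ with all exponents < K). hsep: an element divisible by all powers of the class of g is 0 (Krull, D Noetherian domain,
span {g} ≠ ⊤: Ideal.iInf_pow_eq_bot_of_isDomain). hfin: f = (polynomial with exponents < K) + (element of m^K) and
m^K ≤ p ⊔ span {g}. (constant coefficients: C a acts as a.) -/

namespace Pool.Agent.LibMC10

open IsLocalRing

private theorem l4_X_mem {k : Type*} [Field k] {σ : Type*} (i : σ) :
    (MvPowerSeries.X i : MvPowerSeries σ k) ∈ maximalIdeal (MvPowerSeries σ k) := by
  rw [mem_maximalIdeal, mem_nonunits_iff, MvPowerSeries.isUnit_iff_constantCoeff]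
  simp

private theorem l4_monomial {k : Type*} [Field k] {σ : Type*} (s : σ →₀ ℕ) :
    MvPowerSeries.monomial s (1 : k) ∈ maximalIdeal (MvPowerSeries σ k) ^ s.degree := by
  classical
  rw [MvPowerSeries.monomial_one_eq, Finsupp.prod, Finsupp.degree_apply, ← Finset.prod_pow_eq_pow_sum]
  exact Ideal.prod_mem_prod fun i _ => Ideal.pow_mem_pow (l4_X_mem i) _

/-- a power series without terms of degree less than `K` is in the power `K` of the maximal
ideal -/
private theorem l4_order {k : Type*} [Field k] {σ : Type*} [Finite σ] (K : ℕ)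
    (f : MvPowerSeries σ k) (hf : ∀ n : σ →₀ ℕ, n.degree < K → MvPowerSeries.coeff n f = 0) :
    f ∈ maximalIdeal (MvPowerSeries σ k) ^ K := by
  classical
  have hc : ∀ n : σ →₀ ℕ, ∃ s : σ →₀ ℕ, s ≤ n ∧ (K ≤ n.degree → s.degree = K) := by
    intro n
    by_cases h : K ≤ n.degree
    · obtain ⟨g, hg, hg'⟩ := Finsupp.exists_le_degree_eq n K h
      exact ⟨g, hg, fun _ => hg'⟩
    · exact ⟨0, (zero_le : (0 : σ →₀ ℕ) ≤ n), fun h' => absurd h' h⟩
  choose c hc1 hc2 using hc
  have hfin : {s : σ →₀ ℕ | s.degree ≤ K}.Finite := Finsupp.finite_of_degree_le K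
  let S : Finset (σ →₀ ℕ) := hfin.toFinset.filter fun s => s.degree = K
  have hS : ∀ s, s ∈ S ↔ s.degree = K := by
    intro s
    simp only [S, Finset.mem_filter, Set.Finite.mem_toFinset, Set.mem_ofPred_eq]
    constructor
    · exact fun h => h.2
    · exact fun h => ⟨h.le, h⟩
  let F : (σ →₀ ℕ) → MvPowerSeries σ k := fun s m =>
    if c (m + s) = s then MvPowerSeries.coeff (m + s) f else 0
  have hF : ∀ s m, MvPowerSeries.coeff m (F s) =
      if c (m + s) = s then MvPowerSeries.coeff (m + s) f else 0 := fun s m => rfl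
  have e : f = ∑ s ∈ S, MvPowerSeries.monomial s (1 : k) * F s := by
    ext n
    rw [map_sum]
    have h1 : ∀ s ∈ S, MvPowerSeries.coeff n (MvPowerSeries.monomial s (1 : k) * F s) =
        if s = c n then MvPowerSeries.coeff n f else 0 := by
      intro s _
      rw [MvPowerSeries.coeff_monomial_mul]
      by_cases hs : s ≤ n
      · rw [if_pos hs, one_mul, hF, tsub_add_cancel_of_le hs]
        by_cases h2 : c n = s
        · rw [if_pos h2, if_pos h2.symm]
        · rw [if_neg h2, if_neg (Ne.symm h2)]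
      · rw [if_neg hs, if_neg]
        rintro rfl
        exact hs (hc1 n)
    rw [Finset.sum_congr rfl h1]
    by_cases hn : K ≤ n.degree
    · rw [Finset.sum_ite_eq' S (c n), if_pos ((hS _).2 (hc2 n hn))]
    · rw [hf n (by omega)]
      simp
  rw [e]
  refine Ideal.sum_mem _ fun s hs => Ideal.mul_mem_right _ _ ?_
  have h1 := l4_monomial (k := k) s
  rwa [(hS s).1 hs] at h1

theorem finite_quot {k : Type*} [Field k] {σ : Type*} [Finite σ] (g : MvPowerSeries σ k)
    (hg : MvPowerSeries.constantCoeff g = 0) (p : Ideal (MvPowerSeries σ k)) [p.IsPrime]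
    (K : ℕ) (hK : maximalIdeal (MvPowerSeries σ k) ^ K ≤ p ⊔ Ideal.span {g}) :
    ∃ φ : PowerSeries k →ₐ[k] (MvPowerSeries σ k ⧸ p), φ PowerSeries.X = Ideal.Quotient.mk p g ∧
      φ.toRingHom.Finite := by
  classical
  let D := MvPowerSeries σ k ⧸ p
  have ha : PowerSeries.HasSubst g := PowerSeries.HasSubst.of_constantCoeff_zero hg
  let φ : PowerSeries k →ₐ[k] D := (Ideal.Quotient.mkₐ k p).comp (PowerSeries.substAlgHom ha)
  have hφX : φ PowerSeries.X = Ideal.Quotient.mk p g := by
    show Ideal.Quotient.mk p (PowerSeries.substAlgHom ha PowerSeries.X) = _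
    rw [PowerSeries.substAlgHom_X]
  refine ⟨φ, hφX, ?_⟩
  let _ : Algebra (PowerSeries k) D := φ.toRingHom.toAlgebra
  have hsm : ∀ (a : PowerSeries k) (m : D), a • m = φ a * m := fun _ _ => rfl
  show Module.Finite (PowerSeries k) D
  have hle : p ≤ maximalIdeal (MvPowerSeries σ k) := le_maximalIdeal (Ideal.IsPrime.ne_top inferInstance)
  have hgm : g ∈ maximalIdeal (MvPowerSeries σ k) := by
    rw [mem_maximalIdeal, mem_nonunits_iff, MvPowerSeries.isUnit_iff_constantCoeff, hg]
    simp
  have hne : Ideal.span {(Ideal.Quotient.mk p g : D)} ≠ ⊤ := by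
    intro h
    have h1 : (1 : D) ∈ Ideal.span {(Ideal.Quotient.mk p g : D)} := by rw [h]; trivial
    rw [Ideal.mem_span_singleton] at h1
    obtain ⟨b, hb⟩ := h1
    obtain ⟨b, rfl⟩ := Ideal.Quotient.mk_surjective b
    have h2 : (1 : MvPowerSeries σ k) - g * b ∈ p := by
      rw [← Ideal.Quotient.eq_zero_iff_mem, map_sub, map_one, map_mul, hb, sub_self]
    have h3 : (1 : MvPowerSeries σ k) ∈ maximalIdeal (MvPowerSeries σ k) := by
      have h4 := add_mem (hle h2) (Ideal.mul_mem_right b _ hgm)
      rwa [sub_add_cancel] at h4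
    exact (Ideal.ne_top_iff_one _).1 (Ideal.IsPrime.ne_top inferInstance) h3
  have hfin : {s : σ →₀ ℕ | s.degree ≤ K}.Finite := Finsupp.finite_of_degree_le K
  let S : Finset (σ →₀ ℕ) := hfin.toFinset.filter fun s => s.degree < K
  have hS : ∀ s, s ∈ S ↔ s.degree < K := by
    intro s
    simp only [S, Finset.mem_filter, Set.Finite.mem_toFinset, Set.mem_ofPred_eq]
    exact ⟨fun h => h.2, fun h => ⟨h.le, h⟩⟩
  let e := S.equivFin
  refine finite_of_separated (k := k) (M := D) ?_ (n := S.card)
    (fun i => (Ideal.Quotient.mk p (MvPowerSeries.monomial (e.symm i).1 (1 : k)) : D)) ?_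
  · intro m hm
    have h1 : m ∈ ⨅ i : ℕ, Ideal.span {(Ideal.Quotient.mk p g : D)} ^ i := by
      rw [Ideal.mem_iInf]
      intro i
      obtain ⟨m', hm'⟩ := hm i
      rw [hm', hsm, map_pow, hφX]
      exact Ideal.mul_mem_right _ _ (Ideal.pow_mem_pow (Ideal.mem_span_singleton_self _) i)
    rw [Ideal.iInf_pow_eq_bot_of_isDomain _ hne] at h1
    exact h1
  · intro m
    obtain ⟨f, rfl⟩ := Ideal.Quotient.mk_surjective m
    let P : MvPowerSeries σ k := ∑ s ∈ S, MvPowerSeries.C (MvPowerSeries.coeff s f) *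
      MvPowerSeries.monomial s (1 : k)
    have hP : f - P ∈ maximalIdeal (MvPowerSeries σ k) ^ K := by
      refine l4_order K _ fun n hn => ?_
      rw [map_sub, sub_eq_zero]
      simp only [P, map_sum]
      rw [Finset.sum_eq_single n]
      · rw [MvPowerSeries.coeff_C_mul, MvPowerSeries.coeff_monomial_same, mul_one]
      · intro s _ hs
        rw [MvPowerSeries.coeff_C_mul, MvPowerSeries.coeff_monomial_ne hs.symm, mul_zero]
      · intro h
        exact absurd ((hS n).2 hn) h
    have h2 := hK hP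
    rw [Submodule.mem_sup] at h2
    obtain ⟨a, ha', b, hb, hab⟩ := h2
    rw [Ideal.mem_span_singleton] at hb
    obtain ⟨b', rfl⟩ := hb
    refine ⟨fun i => MvPowerSeries.coeff (e.symm i).1 f, Ideal.Quotient.mk p b', ?_⟩
    have h3 : ∀ c : k, φ (PowerSeries.C c) = Ideal.Quotient.mk p (MvPowerSeries.C c) := by
      intro c
      exact φ.commutes c
    have h4 : ∑ i, (PowerSeries.C (MvPowerSeries.coeff (e.symm i).1 f) : PowerSeries k) •
        (Ideal.Quotient.mk p (MvPowerSeries.monomial (e.symm i).1 (1 : k)) : D) =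
        Ideal.Quotient.mk p P := by
      simp only [P, map_sum]
      rw [← Finset.sum_coe_sort S, ← Equiv.sum_comp e.symm]
      refine Finset.sum_congr rfl fun i _ => ?_
      rw [hsm, h3, map_mul]
    rw [h4, hsm, hφX, ← map_mul, ← map_add, ← sub_eq_zero, ← map_sub,
      Ideal.Quotient.eq_zero_iff_mem]
    have h5 : f - (P + g * b') = a := by
      have : f - P = a + g * b' := hab.symm
      linear_combination this
    rw [h5]
    exact ha'

end Pool.Agent.LibMC10
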