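import Mathlib

set_option autoImplicit false

/-! ROW MC10 L5: a domain finite over k[[X]] (char 0) has a k-derivation with δ X ≠ 0. -/

namespace Pool.Agent.LibMC10

open scoped TensorProduct

/-- derivations extend along formally etale maps -/
private theorem L5_ext {k A L : Type*} [CommRing k] [CommRing A] [CommRing L] [Algebra k A] [Algebra k L]
    [Algebra A L] [IsScalarTower k A L] [Algebra.FormallyEtale A L] (d : Derivation k A A) :
    ∃ δ : Derivation k L L, ∀ a : A, δ (algebraMap A L a) = algebraMap A L (d a) := by
  let d' : Derivation k A L := (Algebra.linearMap A L).compDer d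
  let e := KaehlerDifferential.tensorKaehlerEquivOfFormallyEtale k A L
  let g : L ⊗[A] Ω[A⁄k] →ₗ[L] L := LinearMap.liftBaseChange L d'.liftKaehlerDifferential
  refine ⟨(g ∘ₗ e.symm.toLinearMap).compDer (KaehlerDifferential.D k L), fun a => ?_⟩
  change g (e.symm (KaehlerDifferential.D k L (algebraMap A L a))) = _
  rw [KaehlerDifferential.tensorKaehlerEquivOfFormallyEtale_symm_D_algebraMap]
  change LinearMap.liftBaseChange L d'.liftKaehlerDifferential (1 ⊗ₜ[A] KaehlerDifferential.D k A a) = _
  rw [LinearMap.liftBaseChange_tmul, one_smul, Derivation.liftKaehlerDifferential_comp_D]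
  rfl

private theorem L5_etale {A D : Type*} [CommRing A] [IsDomain A] [CommRing D] [IsDomain D] [Algebra A D]
    [CharZero A] [Module.Finite A D] (hinj : Function.Injective (algebraMap A D)) :
    Algebra.FormallyEtale A (FractionRing D) := by
  have hf : FaithfulSMul A D := (faithfulSMul_iff_algebraMap_injective A D).2 hinj
  have hf2 : FaithfulSMul A (FractionRing D) := by
    rw [faithfulSMul_iff_algebraMap_injective, IsScalarTower.algebraMap_eq A D (FractionRing D)]
    exact (IsFractionRing.injective D (FractionRing D)).comp hinj
  let _ := FractionRing.liftAlgebra A (FractionRing D)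
  have hst : IsScalarTower A (FractionRing A) (FractionRing D) :=
    FractionRing.isScalarTower_liftAlgebra A (FractionRing D)
  have h0 : Algebra.IsAlgebraic A D := inferInstance
  have h1 : Algebra.IsAlgebraic A (FractionRing D) :=
    (IsFractionRing.isAlgebraic_iff' A D (FractionRing D)).1 h0
  have h2 : Algebra.IsAlgebraic (FractionRing A) (FractionRing D) :=
    (IsFractionRing.comap_isAlgebraic_iff (A := A) (K := FractionRing A) (C := FractionRing D)).1 h1
  have h3 : CharZero (FractionRing A) :=
    charZero_of_injective_algebraMap (IsFractionRing.injective A (FractionRing A))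
  have h4 : Algebra.IsSeparable (FractionRing A) (FractionRing D) := inferInstance
  have h5 : Algebra.FormallyEtale (FractionRing A) (FractionRing D) :=
    Algebra.FormallyEtale.of_isSeparable _ _
  have h6 : Algebra.FormallyEtale A (FractionRing A) :=
    Algebra.FormallyEtale.of_isLocalization (nonZeroDivisors A)
  exact Algebra.FormallyEtale.comp A (FractionRing A) (FractionRing D)

theorem exists_deriv {k : Type*} [Field k] [CharZero k] {D : Type*} [CommRing D] [IsDomain D] [Algebra k D]
    [Algebra (PowerSeries k) D] [IsScalarTower k (PowerSeries k) D] [Module.Finite (PowerSeries k) D]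
    (hinj : Function.Injective (algebraMap (PowerSeries k) D)) :
    ∃ δ : Derivation k D D, δ (algebraMap (PowerSeries k) D PowerSeries.X) ≠ 0 := by
  classical
  have hA : CharZero (PowerSeries k) :=
    charZero_of_injective_algebraMap (FaithfulSMul.algebraMap_injective k (PowerSeries k))
  have hE := L5_etale hinj
  have hst : IsScalarTower k (PowerSeries k) (FractionRing D) := inferInstance
  obtain ⟨δ₀, hδ₀⟩ := L5_ext (L := FractionRing D) (PowerSeries.derivative k)
  have hDL : Function.Injective (algebraMap D (FractionRing D)) :=
    IsFractionRing.injective D (FractionRing D)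
  have htow : ∀ a : PowerSeries k, algebraMap (PowerSeries k) (FractionRing D) a =
      algebraMap D (FractionRing D) (algebraMap (PowerSeries k) D a) :=
    fun a => IsScalarTower.algebraMap_apply _ _ _ a
  obtain ⟨s, hs⟩ := (Module.finite_def.1 (inferInstance : Module.Finite (PowerSeries k) D))
  obtain ⟨c, hc⟩ := IsLocalization.exist_integer_multiples_of_finset (nonZeroDivisors D)
    (s.image fun x => δ₀ (algebraMap D (FractionRing D) x))
  have hmem : ∀ x : D, ∃ y : D, algebraMap D (FractionRing D) y =
      algebraMap D (FractionRing D) c * δ₀ (algebraMap D (FractionRing D) x) := by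
    intro x
    have hx : x ∈ Submodule.span (PowerSeries k) (s : Set D) := by
      rw [hs]
      exact Submodule.mem_top
    induction hx using Submodule.span_induction with
    | mem x hx =>
      obtain ⟨y, hy⟩ := hc _ (Finset.mem_image_of_mem _ hx)
      refine ⟨y, ?_⟩
      rw [hy, Algebra.smul_def]
    | zero => exact ⟨0, by simp⟩
    | add x y _ _ hx hy =>
      obtain ⟨u, hu⟩ := hx
      obtain ⟨v, hv⟩ := hy
      exact ⟨u + v, by rw [map_add, map_add, map_add, mul_add, hu, hv]⟩
    | smul a x _ hx =>
      obtain ⟨u, hu⟩ := hx
      refine ⟨algebraMap (PowerSeries k) D a * u +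
        c * (x * algebraMap (PowerSeries k) D (PowerSeries.derivative k a)), ?_⟩
      rw [Algebra.smul_def, map_mul (algebraMap D (FractionRing D)) _ x, Derivation.leibniz, ← htow a,
        hδ₀, map_add, map_mul, map_mul, map_mul, hu, ← htow, ← htow, smul_eq_mul, smul_eq_mul]
      ring
  choose f hf using hmem
  let F : D →ₗ[k] D :=
    { toFun := f
      map_add' := by
        intro x y
        apply hDL
        rw [map_add, hf, hf, hf, map_add, map_add, mul_add]
      map_smul' := by
        intro r x
        apply hDL
        have h1 : algebraMap D (FractionRing D) (r • x) = r • algebraMap D (FractionRing D) x :=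
          by rw [Algebra.smul_def, Algebra.smul_def, map_mul, ← IsScalarTower.algebraMap_apply k D (FractionRing D)]
        have h2 : algebraMap D (FractionRing D) (r • f x) = r • algebraMap D (FractionRing D) (f x) :=
          by rw [Algebra.smul_def, Algebra.smul_def, map_mul, ← IsScalarTower.algebraMap_apply k D (FractionRing D)]
        rw [RingHom.id_apply, h2, hf, hf, h1, Derivation.map_smul, mul_smul_comm] }
  refine ⟨Derivation.mk' F ?_, ?_⟩
  · intro x y
    apply hDL
    change algebraMap D (FractionRing D) (f (x * y)) =
      algebraMap D (FractionRing D) (x • f y + y • f x)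
    rw [hf, map_mul, Derivation.leibniz, smul_eq_mul, smul_eq_mul, smul_eq_mul, smul_eq_mul, map_add,
      map_mul, map_mul, hf, hf]
    ring
  · intro h0
    change f (algebraMap (PowerSeries k) D PowerSeries.X) = 0 at h0
    have h1 := hf (algebraMap (PowerSeries k) D PowerSeries.X)
    rw [h0, map_zero, ← htow, hδ₀, PowerSeries.derivative_X, map_one, mul_one] at h1
    have h2 : (c : D) = 0 := hDL (by rw [← h1, map_zero])
    exact nonZeroDivisors.coe_ne_zero c h2

end Pool.Agent.LibMC10
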