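import Pool.Agent.LibMC10.L2
import Pool.Agent.LibMC10.L3
import Pool.Agent.LibMC10.L4
import Pool.Agent.LibMC10.L5

set_option autoImplicit false

/-! ROW MC10 L6 (SHORT/MEDIUM; uses L2, L3, L4, L5). LEMMA C: a prime of k[[y]] containing all partial derivatives of g, g(0) = 0, contains g. -/

namespace Pool.Agent.LibMC10

theorem lemC {k : Type*} [Field k] [CharZero k] {σ : Type*} [Finite σ] (g : MvPowerSeries σ k)
    (hg : MvPowerSeries.constantCoeff g = 0) (p : Ideal (MvPowerSeries σ k)) [p.IsPrime]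
    (h : ∀ j, MvPowerSeries.pderiv k j g ∈ p) : g ∈ p := by
  classical
  have := Fintype.ofFinite σ
  by_contra hgp
  have hgm : g ∈ IsLocalRing.maximalIdeal (MvPowerSeries σ k) := by
    rw [IsLocalRing.mem_maximalIdeal, mem_nonunits_iff, MvPowerSeries.isUnit_iff_constantCoeff, hg]
    exact not_isUnit_zero
  obtain ⟨q, hq, hJq, hgq, K, hK⟩ := exists_curve g hgm
    (Ideal.span (Set.range fun j => MvPowerSeries.pderiv k j g)) p inferInstance
    (Ideal.span_le.2 (by rintro _ ⟨j, rfl⟩; exact h j)) hgp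
  have := hq
  obtain ⟨φ, hφX, hfin⟩ := finite_quot g hg q K hK
  have hmk : Ideal.Quotient.mk q g ≠ 0 := fun h0 => hgq (Ideal.Quotient.eq_zero_iff_mem.1 h0)
  have hinj : Function.Injective φ.toRingHom := by
    rw [injective_iff_map_eq_zero]
    intro f hf
    by_contra hf0
    obtain ⟨n, u, hu⟩ := IsDiscreteValuationRing.associated_pow_irreducible hf0
      (PowerSeries.X_irreducible (R := k))
    have h1 : φ (f * (u : PowerSeries k)) = 0 := by
      have h2 : φ f = 0 := hf
      rw [map_mul, h2, zero_mul]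
    rw [hu, map_pow, hφX] at h1
    exact hmk (eq_zero_of_pow_eq_zero h1)
  let _ : Algebra (PowerSeries k) (MvPowerSeries σ k ⧸ q) := φ.toRingHom.toAlgebra
  have : IsScalarTower k (PowerSeries k) (MvPowerSeries σ k ⧸ q) :=
    IsScalarTower.of_algebraMap_eq fun x => (φ.commutes x).symm
  have : Module.Finite (PowerSeries k) (MvPowerSeries σ k ⧸ q) := hfin
  obtain ⟨δ, hδ⟩ := exists_deriv (k := k) (D := MvPowerSeries σ k ⧸ q) hinj
  have h3 : algebraMap (PowerSeries k) (MvPowerSeries σ k ⧸ q) PowerSeries.X =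
      Ideal.Quotient.mk q g := hφX
  refine hδ ?_
  rw [h3]
  have h4 := deriv_eq (Ideal.Quotient.mkₐ k q) (Ideal.Quotient.mkₐ_surjective k q) δ g
  rw [Ideal.Quotient.mkₐ_eq_mk] at h4
  rw [h4]
  refine Finset.sum_eq_zero fun j _ => ?_
  have h5 : Ideal.Quotient.mk q (MvPowerSeries.pderiv k j g) = 0 :=
    Ideal.Quotient.eq_zero_iff_mem.2 (hJq (Ideal.subset_span ⟨j, rfl⟩))
  rw [h5, zero_mul]

end Pool.Agent.LibMC10
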