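import Pool.Agent.LibMC10.R9
import Pool.Agent.LibMF6.A2
import Pool.Agent.LibMF6.A4

set_option autoImplicit false

/-! PQ: `siersma (ε N(q)) = dim M/s` for the module `M = MM P Q hP d l` of a pair `(P, Q)` over `k[[s]][[y]]`. -/

namespace Pool.Agent.LibMC10

open IsLocalRing Pool.Agent.LibMF6 Polynomial
open scoped Pointwise

universe u

/-- the parameter `s` -/
noncomputable abbrev sO (k : Type*) [Field k] (N : ℕ) : MvPowerSeries (Fin N) (PowerSeries k) :=
  MvPowerSeries.C (PowerSeries.X : PowerSeries k)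

/-- the relative derivatives -/
noncomputable abbrev dR (k : Type*) [Field k] (N : ℕ) (j : Fin N) :
    MvPowerSeries (Fin N) (PowerSeries k) → MvPowerSeries (Fin N) (PowerSeries k) :=
  fun z => MvPowerSeries.pderiv (PowerSeries k) j z

theorem e0_mem_span {O : Type*} [CommRing O] (P Q : O[X]) (hP : P.Monic) (hm : 0 < P.natDegree) {N : ℕ}
    (d : Fin N → O → O) (l : Fin N → O) (v : VV P) (hv : v ∈ WN P Q hP d l) :
    (Submodule.Quotient.mk v : MM P Q hP d l) ∈
      Submodule.span O {(Submodule.Quotient.mk (e0 P (b0 P)) : MM P Q hP d l)} := by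
  obtain ⟨w, hw, z, hz, rfl⟩ := Submodule.mem_sup.mp hv
  rw [Submodule.Quotient.mk_add, (Submodule.Quotient.mk_eq_zero _).mpr hw, zero_add]
  clear hv
  induction hz using Submodule.span_induction with
  | mem x hx =>
    obtain ⟨b, rfl⟩ := hx
    have h1 := e0_sub_mem P Q hP hm b
    have h2 : e0 P b - tau P hP b • e0 P (b0 P) ∈ WM P Q hP d l := Submodule.mem_sup_left h1
    rw [← Submodule.Quotient.eq] at h2
    change (Submodule.Quotient.mk (e0 P b) : MM P Q hP d l) ∈ _
    rw [h2, Submodule.Quotient.mk_smul]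
    exact Submodule.smul_mem _ _ (Submodule.mem_span_singleton_self _)
  | zero =>
    rw [Submodule.Quotient.mk_zero]
    exact Submodule.zero_mem _
  | add x y _ _ hx hy =>
    rw [Submodule.Quotient.mk_add]
    exact Submodule.add_mem _ hx hy
  | smul a x _ hx =>
    rw [Submodule.Quotient.mk_smul]
    exact Submodule.smul_mem _ _ hx

theorem PQ_main {k : Type u} [Field k] [CharZero k] {N : ℕ} (P Q : (MvPowerSeries (Fin N) (PowerSeries k))[X])
    (hP : P.Monic) (hm : 0 < P.natDegree) (ε : MvPowerSeries (Fin N) (PowerSeries k)) (hε : IsUnit ε)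
    (l : Fin N → MvPowerSeries (Fin N) (PowerSeries k)) (hl : ∀ j, ε * l j = dR k N j ε)
    (hG0 : MvPowerSeries.constantCoeff (sp k (GG P Q)) = 0)
    (hA : Module.Finite k (QuotSMulTop (sO k N) (VV P ⧸ WN P Q hP (dR k N) l)))
    (hS : ∃ r : ℕ, ∀ v : VV P, sO k N ^ r • v ∈ WN P Q hP (dR k N) l)
    (hcore : (∀ i : Fin N, ∃ e : ℕ, ∀ v : VV P, ∃ v' : VV P,
        ((MvPowerSeries.X i : MvPowerSeries (Fin N) (PowerSeries k)) ^ e) • v - sO k N • v' ∈ WM P Q hP (dR k N) l) →
      ∀ v : VV P, sO k N • v ∈ WM P Q hP (dR k N) l → v ∈ WM P Q hP (dR k N) l) :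
    Module.Finite k (QuotSMulTop (sO k N) (MM P Q hP (dR k N) l)) ∧
    siersma k (ε * GG P Q) = Module.finrank k (QuotSMulTop (sO k N) (MM P Q hP (dR k N) l)) ∧
    Module.rank (PowerSeries k) (Localization.Away (Ideal.Quotient.mk (JJ k (ε * GG P Q)) (ε * GG P Q))) <
      Cardinal.aleph0 := by
  classical
  obtain ⟨ρ, hρ, hD⟩ := exists_adj (R := PowerSeries k) P Q hP hm
  have hfinB : Module.Finite (MvPowerSeries (Fin N) (PowerSeries k)) (AdjoinRoot P) := hP.finite_adjoinRoot
  -- the values of `phi` on the vectors `wv`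
  have hphi : ∀ j, ε * phi P Q hP ρ (wv P Q (dR k N j) (l j)) = dR k N j (ε * GG P Q) := by
    intro j
    rw [phi_wv P Q hP hm ρ (dR k N j) (l j) _ (hD (MvPowerSeries.pderiv (PowerSeries k) j))]
    change _ = MvPowerSeries.pderiv (PowerSeries k) j (ε * GG P Q)
    rw [Derivation.leibniz, smul_eq_mul, smul_eq_mul, mul_add]
    have h1 := hl j
    change ε * l j = MvPowerSeries.pderiv (PowerSeries k) j ε at h1
    rw [← h1]
    ring
  have hphiJ : ∀ j, phi P Q hP ρ (wv P Q (dR k N j) (l j)) ∈ JJ k (ε * GG P Q) := by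
    intro j
    obtain ⟨ε', hε'⟩ := hε.exists_left_inv
    have h1 : phi P Q hP ρ (wv P Q (dR k N j) (l j)) = ε' * dR k N j (ε * GG P Q) := by
      rw [← hphi j, ← mul_assoc, hε', one_mul]
    rw [h1]
    exact Ideal.mul_mem_left _ _ (Ideal.subset_span ⟨j, rfl⟩)
  -- φ
  let φ₀ : VV P →ₗ[MvPowerSeries (Fin N) (PowerSeries k)] (MvPowerSeries (Fin N) (PowerSeries k)) ⧸ JJ k (ε * GG P Q) :=
    (Submodule.mkQ (JJ k (ε * GG P Q))).comp (phi P Q hP ρ)
  have hφ₀ : WM P Q hP (dR k N) l ≤ LinearMap.ker φ₀ := by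
    refine sup_le ?_ ?_
    · intro v hv
      rw [LinearMap.mem_ker]
      change Submodule.Quotient.mk (phi P Q hP ρ v) = 0
      rw [phi_W0 P Q hP ρ hρ v hv, Submodule.Quotient.mk_zero]
    · rw [Submodule.span_le]
      rintro v ⟨j, rfl⟩
      rw [SetLike.mem_coe, LinearMap.mem_ker]
      change Submodule.Quotient.mk (phi P Q hP ρ _) = 0
      rw [Submodule.Quotient.mk_eq_zero]
      exact hphiJ j
  let φ : MM P Q hP (dR k N) l →ₗ[MvPowerSeries (Fin N) (PowerSeries k)]
      (MvPowerSeries (Fin N) (PowerSeries k)) ⧸ JJ k (ε * GG P Q) := Submodule.liftQ _ φ₀ hφ₀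
  have hφ : ∀ v : VV P, φ (Submodule.Quotient.mk v) = Submodule.Quotient.mk (phi P Q hP ρ v) := fun v => rfl
  -- G v = phi v b
  have hGv : ∀ v : VV P, (Submodule.Quotient.mk (GG P Q • v) : MM P Q hP (dR k N) l) =
      phi P Q hP ρ v • Submodule.Quotient.mk (e0 P (b0 P)) := by
    intro v
    rw [← Submodule.Quotient.mk_smul, Submodule.Quotient.eq]
    exact Submodule.mem_sup_left (G_smul P Q hP hm ρ hρ v)
  -- ψ
  let ψ₀ : (MvPowerSeries (Fin N) (PowerSeries k)) →ₗ[MvPowerSeries (Fin N) (PowerSeries k)]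
      MM P Q hP (dR k N) l := LinearMap.toSpanSingleton _ _ (Submodule.Quotient.mk (e0 P (b0 P)))
  have hψ₀ : JJ k (ε * GG P Q) ≤ LinearMap.ker ψ₀ := by
    unfold JJ
    rw [Ideal.span, Submodule.span_le]
    rintro y ⟨j, rfl⟩
    rw [SetLike.mem_coe, LinearMap.mem_ker]
    change (MvPowerSeries.pderiv (PowerSeries k) j (ε * GG P Q)) •
      (Submodule.Quotient.mk (e0 P (b0 P)) : MM P Q hP (dR k N) l) = 0
    have h1 := hphi j
    change _ = MvPowerSeries.pderiv (PowerSeries k) j (ε * GG P Q) at h1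
    have h2 : (Submodule.Quotient.mk (wv P Q (dR k N j) (l j)) : MM P Q hP (dR k N) l) = 0 :=
      (Submodule.Quotient.mk_eq_zero _).mpr (Submodule.mem_sup_right (Submodule.subset_span ⟨j, rfl⟩))
    rw [← h1, mul_smul, ← hGv, Submodule.Quotient.mk_smul, h2, smul_zero, smul_zero]
  let ψ : ((MvPowerSeries (Fin N) (PowerSeries k)) ⧸ JJ k (ε * GG P Q)) →ₗ[MvPowerSeries (Fin N) (PowerSeries k)]
      MM P Q hP (dR k N) l := Submodule.liftQ (JJ k (ε * GG P Q)) ψ₀ hψ₀
  have hψ : ∀ c : MvPowerSeries (Fin N) (PowerSeries k),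
      ψ (Submodule.Quotient.mk c) = c • Submodule.Quotient.mk (e0 P (b0 P)) := fun c => rfl
  refine rank_one (GG P Q) ε hε hG0 (Submodule.Quotient.mk (e0 P (b0 P))) φ ψ ?_ ?_ ?_ ?_ hS.choose ?_ ?_
  · intro x
    obtain ⟨v, rfl⟩ := Submodule.Quotient.mk_surjective _ x
    rw [hφ, hψ, ← hGv, Submodule.Quotient.mk_smul]
  · intro y
    obtain ⟨c, rfl⟩ := Submodule.Quotient.mk_surjective _ y
    rw [hψ, map_smul, hφ, phi_e0, tau_b0 P hP hm, mul_one, ← Submodule.Quotient.mk_smul,
      ← Submodule.Quotient.mk_smul, smul_eq_mul, smul_eq_mul, mul_comm c]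
  · intro F _ _ _ lam hG
    exact lemE P Q hP hm (lam.comp (Submodule.mkQ _)) (fun v hv => by
      have h2 : (Submodule.Quotient.mk v : MM P Q hP (dR k N) l) = 0 :=
        (Submodule.Quotient.mk_eq_zero _).mpr (Submodule.mem_sup_left hv)
      exact (congrArg lam h2).trans (map_zero lam)) hG
  · -- finiteness
    have hsur : ∃ f : (VV P ⧸ WN P Q hP (dR k N) l) →ₗ[MvPowerSeries (Fin N) (PowerSeries k)]
        (MM P Q hP (dR k N) l ⧸ Submodule.span (MvPowerSeries (Fin N) (PowerSeries k))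
          {(Submodule.Quotient.mk (e0 P (b0 P)) : MM P Q hP (dR k N) l)}), Function.Surjective f := by
      refine ⟨Submodule.liftQ _ ((Submodule.mkQ _).comp (Submodule.mkQ _)) ?_, ?_⟩
      · intro v hv
        rw [LinearMap.mem_ker]
        change Submodule.Quotient.mk (Submodule.Quotient.mk v) = 0
        rw [Submodule.Quotient.mk_eq_zero]
        exact e0_mem_span P Q hP hm (dR k N) l v hv
      · intro z
        obtain ⟨y, rfl⟩ := Submodule.Quotient.mk_surjective _ z
        obtain ⟨v, rfl⟩ := Submodule.Quotient.mk_surjective _ y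
        exact ⟨Submodule.Quotient.mk v, rfl⟩
    obtain ⟨f, hf⟩ := hsur
    have h2 := QuotSMulTop.map_surjective (sO k N) hf
    exact Module.Finite.of_surjective ((QuotSMulTop.map (sO k N) f).restrictScalars k) h2
  · intro x
    obtain ⟨v, rfl⟩ := Submodule.Quotient.mk_surjective _ x
    have h1 := e0_mem_span P Q hP hm (dR k N) l _ (hS.choose_spec v)
    obtain ⟨a, ha⟩ := Submodule.mem_span_singleton.mp h1
    exact ⟨a, by rw [ha, Submodule.Quotient.mk_smul]⟩
  · intro h1 x hx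
    obtain ⟨v, rfl⟩ := Submodule.Quotient.mk_surjective _ x
    rw [← Submodule.Quotient.mk_smul, Submodule.Quotient.mk_eq_zero] at hx
    rw [Submodule.Quotient.mk_eq_zero]
    refine hcore (fun i => ?_) v hx
    obtain ⟨e, he⟩ := h1 i
    refine ⟨e, fun w => ?_⟩
    obtain ⟨y, hy⟩ := he (Submodule.Quotient.mk w)
    obtain ⟨w', rfl⟩ := Submodule.Quotient.mk_surjective _ y
    refine ⟨w', ?_⟩
    rw [← Submodule.Quotient.mk_smul, ← Submodule.Quotient.mk_smul, Submodule.Quotient.eq] at hy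
    exact hy

end Pool.Agent.LibMC10
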