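import Pool.Agent.LibMC10.PQ
import Pool.Agent.LibMF6.CDefs

set_option autoImplicit false

/-! PQ2: `PQ_main` in the shape of LibMF6 (`sTop P = s V`). -/

namespace Pool.Agent.LibMC10

open IsLocalRing Pool.Agent.LibMF6 Polynomial
open scoped Pointwise

universe u

theorem mem_sTop {k : Type*} [Field k] {N : ℕ} (P : (MvPowerSeries (Fin N) (PowerSeries k))[X]) (v : VV P) :
    v ∈ sTop P ↔ ∃ w : VV P, v = (MvPowerSeries.C (PowerSeries.X : PowerSeries k) :
      MvPowerSeries (Fin N) (PowerSeries k)) • w := by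
  unfold sTop
  rw [LinearMap.mem_range]
  exact ⟨fun ⟨w, hw⟩ => ⟨w, hw.symm⟩, fun ⟨w, hw⟩ => ⟨w, hw.symm⟩⟩

/-- `V/(W + sV)` and `(V/W)/s` -/
noncomputable def quotEquiv {k : Type*} [Field k] {N : ℕ} (P : (MvPowerSeries (Fin N) (PowerSeries k))[X])
    (W : Submodule (MvPowerSeries (Fin N) (PowerSeries k)) (VV P)) :
    (VV P ⧸ (W ⊔ sTop P)) ≃ₗ[MvPowerSeries (Fin N) (PowerSeries k)]
      QuotSMulTop (MvPowerSeries.C (PowerSeries.X : PowerSeries k) : MvPowerSeries (Fin N) (PowerSeries k)) (VV P ⧸ W) := by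
  refine LinearEquiv.ofBijective (Submodule.liftQ _ ((Submodule.mkQ _).comp (Submodule.mkQ W)) ?_) ⟨?_, ?_⟩
  · refine sup_le ?_ ?_
    · intro v hv
      rw [LinearMap.mem_ker]
      change Submodule.Quotient.mk (Submodule.Quotient.mk v) = 0
      rw [(Submodule.Quotient.mk_eq_zero W).mpr hv, Submodule.Quotient.mk_zero]
    · intro v hv
      obtain ⟨w, rfl⟩ := (mem_sTop P v).mp hv
      rw [LinearMap.mem_ker]
      change Submodule.Quotient.mk (Submodule.Quotient.mk _) = 0
      rw [Submodule.Quotient.mk_smul, Submodule.Quotient.mk_eq_zero]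
      exact Submodule.smul_mem_pointwise_smul _ _ _ Submodule.mem_top
  · rw [← LinearMap.ker_eq_bot, LinearMap.ker_eq_bot']
    intro z hz
    obtain ⟨v, rfl⟩ := Submodule.Quotient.mk_surjective _ z
    change Submodule.Quotient.mk (Submodule.Quotient.mk v) = 0 at hz
    rw [Submodule.Quotient.mk_eq_zero] at hz
    obtain ⟨y, -, hy⟩ := (Submodule.mem_smul_pointwise_iff_exists _ _ _).mp hz
    obtain ⟨w, rfl⟩ := Submodule.Quotient.mk_surjective _ y
    rw [← Submodule.Quotient.mk_smul, Submodule.Quotient.eq] at hy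
    rw [Submodule.Quotient.mk_eq_zero]
    have h1 : v = -((MvPowerSeries.C (PowerSeries.X : PowerSeries k) :
        MvPowerSeries (Fin N) (PowerSeries k)) • w - v) + (MvPowerSeries.C (PowerSeries.X : PowerSeries k) :
        MvPowerSeries (Fin N) (PowerSeries k)) • w := by
      abel
    rw [h1]
    exact Submodule.add_mem _ (Submodule.neg_mem _ (Submodule.mem_sup_left hy))
      (Submodule.mem_sup_right ((mem_sTop P _).mpr ⟨w, rfl⟩))
  · intro z
    obtain ⟨y, rfl⟩ := Submodule.Quotient.mk_surjective _ z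
    obtain ⟨v, rfl⟩ := Submodule.Quotient.mk_surjective _ y
    exact ⟨Submodule.Quotient.mk v, rfl⟩

/-- final form of the FAITH block over the pair `(P, Q)` -/
theorem PQ_final {k : Type u} [Field k] [CharZero k] {N : ℕ} (P Q : (MvPowerSeries (Fin N) (PowerSeries k))[X])
    (hP : P.Monic) (hm : 0 < P.natDegree) (ε : MvPowerSeries (Fin N) (PowerSeries k)) (hε : IsUnit ε)
    (l : Fin N → MvPowerSeries (Fin N) (PowerSeries k))
    (hl : ∀ j, ε * l j = MvPowerSeries.pderiv (PowerSeries k) j ε)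
    (hG0 : MvPowerSeries.constantCoeff (sp k (GG P Q)) = 0)
    (hA : Module.Finite k (VV P ⧸ (WN P Q hP (fun j z => MvPowerSeries.pderiv (PowerSeries k) j z) l ⊔ sTop P)))
    (r : ℕ) (hS : ∀ v : VV P, Pool.Agent.LibMF6.sO k N ^ r • v ∈ WN P Q hP (fun j z => MvPowerSeries.pderiv (PowerSeries k) j z) l)
    (hcore : (∀ i : Fin N, ∃ e : ℕ, ∀ v : VV P,
        ((MvPowerSeries.X i : MvPowerSeries (Fin N) (PowerSeries k)) ^ e) • v ∈
          WM P Q hP (fun j z => MvPowerSeries.pderiv (PowerSeries k) j z) l ⊔ sTop P) →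
      ∀ v : VV P, Pool.Agent.LibMF6.sO k N • v ∈ WM P Q hP (fun j z => MvPowerSeries.pderiv (PowerSeries k) j z) l →
        v ∈ WM P Q hP (fun j z => MvPowerSeries.pderiv (PowerSeries k) j z) l) :
    Module.Finite k (VV P ⧸ (WM P Q hP (fun j z => MvPowerSeries.pderiv (PowerSeries k) j z) l ⊔ sTop P)) ∧
    siersma k (ε * GG P Q) = Module.finrank k
      (VV P ⧸ (WM P Q hP (fun j z => MvPowerSeries.pderiv (PowerSeries k) j z) l ⊔ sTop P)) ∧
    Module.rank (PowerSeries k) (Localization.Away (Ideal.Quotient.mk (JJ k (ε * GG P Q)) (ε * GG P Q))) <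
      Cardinal.aleph0 := by
  have h1 := PQ_main P Q hP hm ε hε l hl hG0
    (Module.Finite.equiv ((quotEquiv P (WN P Q hP (fun j z => MvPowerSeries.pderiv (PowerSeries k) j z) l)).restrictScalars k))
    ⟨r, hS⟩ (fun h v hv => hcore (fun i => by
      obtain ⟨e, he⟩ := h i
      refine ⟨e, fun v => ?_⟩
      obtain ⟨w, hw⟩ := he v
      have h2 : ((MvPowerSeries.X i : MvPowerSeries (Fin N) (PowerSeries k)) ^ e) • v =
          (((MvPowerSeries.X i : MvPowerSeries (Fin N) (PowerSeries k)) ^ e) • v - Pool.Agent.LibMC10.sO k N • w) +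
            Pool.Agent.LibMC10.sO k N • w := by
        abel
      rw [h2]
      exact Submodule.add_mem _ (Submodule.mem_sup_left hw)
        (Submodule.mem_sup_right ((mem_sTop P _).mpr ⟨w, rfl⟩))) v hv)
  obtain ⟨h2, h3, h4⟩ := h1
  have e := (quotEquiv P (WM P Q hP (fun j z => MvPowerSeries.pderiv (PowerSeries k) j z) l)).restrictScalars k
  exact ⟨Module.Finite.equiv e.symm, h3.trans (LinearEquiv.finrank_eq e.symm), h4⟩

/-- a power of the variables: consequence of finiteness -/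
theorem pow_X_mem {k : Type u} [Field k] {N : ℕ} (P : (MvPowerSeries (Fin N) (PowerSeries k))[X])
    (W : Submodule (MvPowerSeries (Fin N) (PowerSeries k)) (VV P)) (h : Module.Finite k (VV P ⧸ W)) (i : Fin N) :
    ∃ e : ℕ, ∀ v : VV P, ((MvPowerSeries.X i : MvPowerSeries (Fin N) (PowerSeries k)) ^ e) • v ∈ W := by
  obtain ⟨K, hK⟩ := pow_smul_eq_zero (k := k) (O := MvPowerSeries (Fin N) (PowerSeries k)) (V := VV P ⧸ W)
  refine ⟨K, fun v => ?_⟩
  have h1 := hK ((MvPowerSeries.X i : MvPowerSeries (Fin N) (PowerSeries k)) ^ K) (Ideal.pow_mem_pow (by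
    rw [mem_maximalIdeal, mem_nonunits_iff]
    intro hu
    have h1 := (MvPowerSeries.isUnit_iff_constantCoeff).mp hu
    rw [MvPowerSeries.constantCoeff_X] at h1
    exact not_isUnit_zero h1) K) (Submodule.Quotient.mk v)
  rwa [← Submodule.Quotient.mk_smul, Submodule.Quotient.mk_eq_zero] at h1

end Pool.Agent.LibMC10
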