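import Pool.Agent.LibMC10.L1

set_option autoImplicit false

/-! ROW MC10 R1 (MEDIUM; uses L1). A finitely generated module over k[[s]][[y]] with m^K M ≤ s M and s regular is finite free
over k[[s]]. (PowerSeries k = k[[s]], s = PowerSeries.X.)
PLAN. Let x_1..x_r generate M over O. v = all y^e • x_i, e a monomial with all exponents < K (finitely many; enumerate by Fin n).
hfin: an element is ∑ f_i x_i; f_i = ∑_{e < K exponents} C(coefficient, a power series in s) y^e + (element of m^K), and a power series in
s is constant + X * (...); m^K M ≤ X M by hK. hsep: Krull intersection theorem for the Noetherian local ring O, the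
finite module M and the ideal span {C X} ≤ maximal ideal (Ideal.iInf_pow_smul_eq_bot_of_isLocalRing); X^K • m' in the
PowerSeries k structure is (algebraMap X)^K • m' (IsScalarTower). So M is finite over k[[s]] by L1; it is torsion free: a
nonzero element of k[[s]] is unit * X^n. PowerSeries k is a PID: Module.free_of_finite_type_torsion_free'. -/

namespace Pool.Agent.LibMC10

open IsLocalRing

private noncomputable def R1_e {N K : ℕ} (e : Fin N → Fin K) : Fin N →₀ ℕ :=
  Finsupp.equivFunOnFinite.symm fun i => (e i : ℕ)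

private lemma R1_e_apply {N K : ℕ} (e : Fin N → Fin K) (i : Fin N) : R1_e e i = (e i : ℕ) := rfl

private lemma R1_decomp {A : Type*} [CommRing A] {N : ℕ} (K : ℕ) (f : MvPowerSeries (Fin N) A) :
    ∃ g : Fin N → MvPowerSeries (Fin N) A,
      f = ∑ e : Fin N → Fin K, MvPowerSeries.monomial (R1_e e) (MvPowerSeries.coeff (R1_e e) f) +
        ∑ i, (MvPowerSeries.X i : MvPowerSeries (Fin N) A) ^ K * g i := by
  classical
  have hg : ∀ i : Fin N, ∃ g : MvPowerSeries (Fin N) A, ∀ d, MvPowerSeries.coeff d g =
      if ∀ j < i, (d + Finsupp.single i K) j < K then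
        MvPowerSeries.coeff (d + Finsupp.single i K) f else 0 := fun i =>
    ⟨fun d => if ∀ j < i, (d + Finsupp.single i K) j < K then
      MvPowerSeries.coeff (d + Finsupp.single i K) f else 0, fun d => rfl⟩
  choose g hg using hg
  refine ⟨g, ?_⟩
  ext d
  rw [map_add, map_sum, map_sum]
  have h2 : ∀ i : Fin N, MvPowerSeries.coeff d ((MvPowerSeries.X i : MvPowerSeries (Fin N) A) ^ K *
      g i) = if K ≤ d i ∧ ∀ j < i, d j < K then MvPowerSeries.coeff d f else 0 := by
    intro i
    rw [MvPowerSeries.X_pow_eq, MvPowerSeries.coeff_monomial_mul]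
    have h3 : Finsupp.single i K ≤ d ↔ K ≤ d i := by
      rw [Finsupp.single_le_iff]
    by_cases h : K ≤ d i
    · rw [if_pos (h3.2 h), one_mul]
      have h4 : d - Finsupp.single i K + Finsupp.single i K = d := tsub_add_cancel_of_le (h3.2 h)
      rw [hg, h4]
      by_cases h5 : ∀ j < i, d j < K
      · rw [if_pos h5, if_pos ⟨h, h5⟩]
      · rw [if_neg h5, if_neg fun h6 => h5 h6.2]
    · rw [if_neg fun h6 => h (h3.1 h6), if_neg fun h6 => h h6.1]
  rw [Finset.sum_congr rfl fun i _ => h2 i]
  by_cases hbox : ∀ i, d i < K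
  · rw [Finset.sum_eq_single (fun i => (⟨d i, hbox i⟩ : Fin K)), Finset.sum_eq_zero, add_zero]
    · have h5 : R1_e (fun i => (⟨d i, hbox i⟩ : Fin K)) = d := by
        ext i
        rfl
      rw [h5, MvPowerSeries.coeff_monomial_same]
    · intro i _
      rw [if_neg fun h6 => absurd h6.1 (not_le.2 (hbox i))]
    · intro e _ he
      rw [MvPowerSeries.coeff_monomial_ne]
      intro h7
      apply he
      funext i
      apply Fin.ext
      show (e i : ℕ) = d i
      rw [h7, R1_e_apply]
    · intro h
      exact absurd (Finset.mem_univ _) h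
  · rw [Finset.sum_eq_zero, zero_add]
    · push Not at hbox
      have hne : (Finset.univ.filter fun i => K ≤ d i).Nonempty := by
        obtain ⟨i, hi⟩ := hbox
        exact ⟨i, Finset.mem_filter.2 ⟨Finset.mem_univ _, hi⟩⟩
      set i₀ := (Finset.univ.filter fun i => K ≤ d i).min' hne with hi₀
      have h8 : K ≤ d i₀ := (Finset.mem_filter.1 (Finset.min'_mem _ hne)).2
      have h9 : ∀ j < i₀, d j < K := by
        intro j hj
        by_contra h
        have h11 : j ∈ (Finset.univ.filter fun i => K ≤ d i) := by
          rw [Finset.mem_filter]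
          exact ⟨Finset.mem_univ _, not_lt.1 h⟩
        have h10 : i₀ ≤ j := Finset.min'_le _ j h11
        exact absurd h10 (not_le.2 hj)
      rw [Finset.sum_eq_single i₀]
      · rw [if_pos ⟨h8, h9⟩]
      · intro i _ hi
        rw [if_neg]
        rintro ⟨h10, h11⟩
        rcases lt_trichotomy i i₀ with h | h | h
        · exact absurd (h9 i h) (not_lt.2 h10)
        · exact hi h
        · exact absurd (h11 i₀ h) (not_lt.2 h8)
      · intro h
        exact absurd (Finset.mem_univ _) h
    · intro e _
      rw [MvPowerSeries.coeff_monomial_ne]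
      intro h7
      apply hbox
      intro i
      rw [h7, R1_e_apply]
      exact (e i).2

private lemma R1_sep {O M : Type*} [CommRing O] [IsNoetherianRing O] [IsLocalRing O] [AddCommGroup M]
    [Module O M] [Module.Finite O M] (x : O) (hx : x ∈ maximalIdeal O) (m : M)
    (hm : ∀ j : ℕ, ∃ m' : M, m = x ^ j • m') : m = 0 := by
  have hI1 : Ideal.span {x} ≠ ⊤ := by
    intro h
    have h2 : Ideal.span {x} ≤ maximalIdeal O := by
      rw [Ideal.span_le, Set.singleton_subset_iff]
      exact hx
    rw [h, top_le_iff] at h2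
    exact (maximalIdeal.isMaximal O).ne_top h2
  have h3 := Ideal.iInf_pow_smul_eq_bot_of_isLocalRing (M := M) (Ideal.span {x}) hI1
  have h4 : m ∈ (⨅ i : ℕ, Ideal.span {x} ^ i • ⊤ : Submodule O M) := by
    rw [Submodule.mem_iInf]
    intro j
    obtain ⟨m', hm'⟩ := hm j
    rw [hm']
    exact Submodule.smul_mem_smul (Ideal.pow_mem_pow (Ideal.mem_span_singleton_self x) j)
      Submodule.mem_top
  rw [h3] at h4
  exact (Submodule.mem_bot O).1 h4

private lemma R1_gen {O M : Type*} [CommRing O] [AddCommGroup M] [Module O M] [Module.Finite O M] :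
    ∃ (n : ℕ) (s : Fin n → M), ∀ m : M, ∃ F : Fin n → O, m = ∑ i, F i • s i := by
  obtain ⟨n, s, hs⟩ := Module.Finite.exists_fin (R := O) (M := M)
  refine ⟨n, s, fun m => ?_⟩
  have h1 : m ∈ Submodule.span O (Set.range s) := by rw [hs]; exact Submodule.mem_top
  rw [Submodule.mem_span_range_iff_exists_fun] at h1
  obtain ⟨F, hF⟩ := h1
  exact ⟨F, hF.symm⟩

theorem finite_free {k : Type*} [Field k] {N : ℕ} {M : Type*} [AddCommGroup M]
    [Module (MvPowerSeries (Fin N) (PowerSeries k)) M] [Module.Finite (MvPowerSeries (Fin N) (PowerSeries k)) M]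
    [Module (PowerSeries k) M] [IsScalarTower (PowerSeries k) (MvPowerSeries (Fin N) (PowerSeries k)) M]
    (K : ℕ)
    (hK : ∀ a ∈ maximalIdeal (MvPowerSeries (Fin N) (PowerSeries k)) ^ K, ∀ x : M,
      ∃ x' : M, a • x = (PowerSeries.X : PowerSeries k) • x')
    (hreg : ∀ x : M, (PowerSeries.X : PowerSeries k) • x = 0 → x = 0) :
    Module.Finite (PowerSeries k) M ∧ Module.Free (PowerSeries k) M := by
  classical
  have hC : ∀ (a : PowerSeries k) (x : M), (MvPowerSeries.C a : MvPowerSeries (Fin N) (PowerSeries k)) • x = a • x := by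
    intro a x
    have h1 : (MvPowerSeries.C a : MvPowerSeries (Fin N) (PowerSeries k)) =
        a • (1 : MvPowerSeries (Fin N) (PowerSeries k)) := by
      rw [MvPowerSeries.smul_eq_C_mul, mul_one]
    rw [h1, smul_assoc, one_smul]
  obtain ⟨n, S, hS⟩ := R1_gen (O := MvPowerSeries (Fin N) (PowerSeries k)) (M := M)
  have hX : ∀ i : Fin N, (MvPowerSeries.X i : MvPowerSeries (Fin N) (PowerSeries k)) ∈
      maximalIdeal (MvPowerSeries (Fin N) (PowerSeries k)) := by
    intro i
    rw [mem_maximalIdeal, mem_nonunits_iff, MvPowerSeries.isUnit_iff_constantCoeff]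
    simp
  have hX' : (MvPowerSeries.C (PowerSeries.X : PowerSeries k) :
      MvPowerSeries (Fin N) (PowerSeries k)) ∈ maximalIdeal (MvPowerSeries (Fin N) (PowerSeries k)) := by
    rw [mem_maximalIdeal, mem_nonunits_iff, MvPowerSeries.isUnit_iff_constantCoeff,
      MvPowerSeries.constantCoeff_C]
    exact PowerSeries.X_prime.not_unit
  -- separatedness
  have hsep : ∀ m : M, (∀ K : ℕ, ∃ m' : M, m = (PowerSeries.X ^ K : PowerSeries k) • m') → m = 0 := by
    intro m hm
    refine R1_sep (MvPowerSeries.C (PowerSeries.X : PowerSeries k)) hX' m fun j => ?_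
    obtain ⟨m', hm'⟩ := hm j
    refine ⟨m', ?_⟩
    rw [← map_pow, hC]
    exact hm'
  -- the generators
  let J := Fin n × (Fin N → Fin K)
  let w : J → M := fun p => MvPowerSeries.monomial (R1_e p.2) (1 : PowerSeries k) • S p.1
  have key : ∀ m : M, ∃ (c : J → k) (m' : M),
      m = ∑ p, (PowerSeries.C (c p) : PowerSeries k) • w p + (PowerSeries.X : PowerSeries k) • m' := by
    intro m
    -- multiples of a generator
    have h1 : ∀ (s : Fin n) (f : MvPowerSeries (Fin N) (PowerSeries k)),
        ∃ (c : (Fin N → Fin K) → k) (m' : M), f • S s =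
          ∑ e, (PowerSeries.C (c e) : PowerSeries k) • w (s, e) + (PowerSeries.X : PowerSeries k) • m' := by
      intro s f
      obtain ⟨g, hg⟩ := R1_decomp K f
      have h2 : ∀ i : Fin N, ∃ x' : M, ((MvPowerSeries.X i : MvPowerSeries (Fin N) (PowerSeries k)) ^ K * g i) •
          S s = (PowerSeries.X : PowerSeries k) • x' := fun i =>
        hK _ (Ideal.mul_mem_right _ _ (Ideal.pow_mem_pow (hX i) K)) _
      choose x' hx' using h2
      have h3 : ∀ e : Fin N → Fin K, ∃ q : PowerSeries k, MvPowerSeries.coeff (R1_e e) f =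
          PowerSeries.C (PowerSeries.constantCoeff (MvPowerSeries.coeff (R1_e e) f)) +
            PowerSeries.X * q := by
        intro e
        have h4 : (PowerSeries.X : PowerSeries k) ∣ MvPowerSeries.coeff (R1_e e) f -
            PowerSeries.C (PowerSeries.constantCoeff (MvPowerSeries.coeff (R1_e e) f)) := by
          rw [PowerSeries.X_dvd_iff]
          simp
        obtain ⟨q, hq⟩ := h4
        exact ⟨q, by rw [← hq]; ring⟩
      choose q hq using h3
      refine ⟨fun e => PowerSeries.constantCoeff (MvPowerSeries.coeff (R1_e e) f),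
        ∑ e, q e • w (s, e) + ∑ i, x' i, ?_⟩
      have h5 : ∀ e : Fin N → Fin K, MvPowerSeries.monomial (R1_e e) (MvPowerSeries.coeff (R1_e e) f) •
          S s = (PowerSeries.C (PowerSeries.constantCoeff (MvPowerSeries.coeff (R1_e e) f)) :
            PowerSeries k) • w (s, e) + (PowerSeries.X : PowerSeries k) • (q e • w (s, e)) := by
        intro e
        have h6 : (MvPowerSeries.monomial (R1_e e) (MvPowerSeries.coeff (R1_e e) f) :
            MvPowerSeries (Fin N) (PowerSeries k)) =
            (MvPowerSeries.coeff (R1_e e) f) • MvPowerSeries.monomial (R1_e e) (1 : PowerSeries k) := by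
          rw [← map_smul, smul_eq_mul, mul_one]
        rw [h6, smul_assoc, ← mul_smul, ← add_smul, ← hq e]
      conv_lhs => rw [hg]
      rw [add_smul, Finset.sum_smul, Finset.sum_smul, Finset.sum_congr rfl fun e _ => h5 e,
        Finset.sum_congr rfl fun i _ => hx' i, Finset.sum_add_distrib, smul_add, ← Finset.smul_sum,
        ← Finset.smul_sum, add_assoc]
    obtain ⟨F, hF⟩ := hS m
    choose c m' hc using fun s : Fin n => h1 s (F s)
    refine ⟨fun p => c p.1 p.2, ∑ s, m' s, ?_⟩
    rw [hF, Finset.sum_congr rfl fun s _ => hc s, Finset.sum_add_distrib, Finset.smul_sum,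
      Fintype.sum_prod_type]
  have hfin : Module.Finite (PowerSeries k) M := by
    refine finite_of_separated hsep (fun i => w ((Fintype.equivFin J).symm i)) fun m => ?_
    obtain ⟨c, m', hm⟩ := key m
    refine ⟨fun i => c ((Fintype.equivFin J).symm i), m', ?_⟩
    rw [hm, ← (Fintype.equivFin J).symm.sum_comp]
  have hpow : ∀ (n : ℕ) (x : M), (PowerSeries.X ^ n : PowerSeries k) • x = 0 → x = 0 := by
    intro n
    induction n with
    | zero => intro x hx; rwa [pow_zero, one_smul] at hx
    | succ n ih =>
      intro x hx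
      rw [pow_succ', mul_smul] at hx
      exact ih x (hreg _ hx)
  have htf : Module.IsTorsionFree (PowerSeries k) M := by
    refine ⟨fun a ha x y hxy => ?_⟩
    have ha0 : a ≠ 0 := ha.ne_zero
    have h1 : a • (x - y) = 0 := by rw [smul_sub, sub_eq_zero]; exact hxy
    have h2 := PowerSeries.X_pow_order_mul_divXPowOrder (f := a)
    have h3 := PowerSeries.isUnit_divided_by_X_pow_order ha0
    obtain ⟨u, hu⟩ := h3
    rw [← h2, ← hu, mul_smul] at h1
    have h4 := hpow _ _ h1
    have h5 : x - y = 0 := by
      have h6 : (↑u⁻¹ : PowerSeries k) • ((↑u : PowerSeries k) • (x - y)) = 0 := by rw [h4, smul_zero]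
      rwa [← mul_smul, Units.inv_mul, one_smul] at h6
    exact sub_eq_zero.1 h5
  exact ⟨hfin, Module.free_of_finite_type_torsion_free'⟩

end Pool.Agent.LibMC10
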