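import Mathlib

set_option autoImplicit false

/-! ROW MC10 R2 (MEDIUM, Mathlib only). The rank of a finite free k[[s]]-module is the k-dimension of any model M₀ of M/sM.
PLAN. Basis b : Basis (Fin n) (PowerSeries k) M, n = finrank (Module.finBasis). The elements π (b i) form a k-basis of M₀: they span (π surjective,
x = ∑ f_i • b i, f_i = C (constantCoeff f_i) + X * g_i, π (X • y) = 0, π (C a • y) = a • π y) and are independent
(∑ a_i • π (b i) = 0 gives π (∑ C a_i • b i) = 0, so ∑ C a_i • b i = X • y, compare coordinates: C a_i = X * (..), constant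
coefficients). Finiteness: Module.Finite.of_basis. -/

namespace Pool.Agent.LibMC10

theorem finrank_special {k : Type*} [Field k] {M M₀ : Type*} [AddCommGroup M] [Module (PowerSeries k) M]
    [Module.Finite (PowerSeries k) M] [Module.Free (PowerSeries k) M] [AddCommGroup M₀] [Module k M₀]
    (π : M →+ M₀) (hπ : Function.Surjective π)
    (hC : ∀ (a : k) (x : M), π ((PowerSeries.C a : PowerSeries k) • x) = a • π x)
    (hker : ∀ x : M, π x = 0 ↔ ∃ y : M, x = (PowerSeries.X : PowerSeries k) • y) :
    Module.Finite k M₀ ∧ Module.finrank (PowerSeries k) M = Module.finrank k M₀ := by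
  classical
  set b := Module.finBasis (PowerSeries k) M with hb
  have hX : ∀ z : M, π ((PowerSeries.X : PowerSeries k) • z) = 0 := fun z => (hker _).2 ⟨z, rfl⟩
  have hsm : ∀ (f : PowerSeries k) (y : M), π (f • y) = (PowerSeries.constantCoeff f) • π y := by
    intro f y
    have h1 : (PowerSeries.X : PowerSeries k) ∣ f - PowerSeries.C (PowerSeries.constantCoeff f) := by
      rw [PowerSeries.X_dvd_iff, map_sub, PowerSeries.constantCoeff_C, sub_self]
    obtain ⟨g, hg⟩ := h1
    have h2 : f = PowerSeries.C (PowerSeries.constantCoeff f) + PowerSeries.X * g := by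
      rw [← hg]
      ring
    have h3 : f • y = (PowerSeries.C (PowerSeries.constantCoeff f) : PowerSeries k) • y +
        (PowerSeries.X : PowerSeries k) • (g • y) := by
      rw [smul_smul, ← add_smul, ← h2]
    rw [h3, map_add, hC, hX, add_zero]
  have hv : LinearIndependent k (fun i => π (b i)) := by
    rw [Fintype.linearIndependent_iff]
    intro g hg j
    have h1 : π (∑ i, (PowerSeries.C (g i) : PowerSeries k) • b i) = 0 := by
      rw [map_sum]
      rw [← hg]
      exact Finset.sum_congr rfl fun i _ => hC _ _
    obtain ⟨y, hy⟩ := (hker _).1 h1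
    have h2 := congrArg (fun z => b.repr z j) hy
    simp only [map_sum, map_smul, Module.Basis.repr_self, Finsupp.coe_finsetSum, Finset.sum_apply,
      Finsupp.smul_apply, smul_eq_mul] at h2
    rw [Finset.sum_eq_single j (fun i _ hij => by rw [Finsupp.single_eq_of_ne (Ne.symm hij), mul_zero])
      (fun hj => absurd (Finset.mem_univ j) hj), Finsupp.single_eq_same, mul_one] at h2
    have h3 := congrArg PowerSeries.constantCoeff h2
    simpa using h3
  have hs : ⊤ ≤ Submodule.span k (Set.range fun i => π (b i)) := by
    intro x₀ _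
    obtain ⟨x, rfl⟩ := hπ x₀
    rw [← b.sum_repr x, map_sum]
    refine Submodule.sum_mem _ fun i _ => ?_
    rw [hsm]
    exact Submodule.smul_mem _ _ (Submodule.subset_span ⟨i, rfl⟩)
  let B := Module.Basis.mk hv hs
  refine ⟨Module.Finite.of_basis B, ?_⟩
  rw [Module.finrank_eq_card_basis B, Fintype.card_fin]

end Pool.Agent.LibMC10
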