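import Mathlib

set_option autoImplicit false

/-! ROW MC10 R3 (MEDIUM, Mathlib only). The rank over a domain R does not change when G is inverted, if a nonzero r₀ ∈ R acts as a multiple of G.
PLAN. Let S = Localization.Away (mk G'), B = O ⧸ J. f : M → S, x ↦ algebraMap B S (φ x), is R-linear.
Injective: f x = 0 gives n with (mk G')^n * φ x = 0, so G^n • φ x = 0 (ε unit, mk G' = mk ε * mk G), ψ of it: G^(n+1) • x = 0 (hψφ), hence
r₀^(n+1) • x = c^(n+1) G^(n+1) x = 0 (hc iterated) and x = 0 by htf. Every z ∈ S has (r₀^n) • z in the range of f: z = y / (mk G')^n, and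
(mk G) * y = φ (ψ y) so z = φ (x) / (mk G)^(n+1) up to a unit of B (put the unit into x), and r₀^(n+1) • φ x = φ (c^(n+1) • G^(n+1) • x).
So S / range f is torsion over the domain R: rank (S / range f) = 0 (rank_eq_zero_iff_isTorsion) and rank S = rank (range f) +
0 = rank M (rank_quotient_add_rank_of_isDomain, LinearEquiv.ofInjective, LinearEquiv.rank_eq). -/

namespace Pool.Agent.LibMC10

private theorem R3_gen {R O : Type*} [CommRing R] [IsDomain R] [CommRing O] [Algebra R O]
    (J : Ideal O) {M : Type*} [AddCommGroup M] [Module O M] [Module R M] [IsScalarTower R O M]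
    (G ε : O) (hε : IsUnit ε)
    (φ : M →ₗ[O] O ⧸ J) (ψ : O ⧸ J →ₗ[O] M) (hψφ : ∀ x, ψ (φ x) = G • x)
    (hφψ : ∀ y, φ (ψ y) = G • y)
    (r₀ : R) (hr₀ : r₀ ≠ 0) (c : O) (hc : ∀ x : M, r₀ • x = (c * G) • x)
    (htf : ∀ x : M, r₀ • x = 0 → x = 0)
    (S : Type*) [CommRing S] [Algebra (O ⧸ J) S] [Algebra R S] [IsScalarTower R (O ⧸ J) S]
    [IsLocalization (Submonoid.powers (Ideal.Quotient.mk J (ε * G))) S] :
    Module.finrank R S = Module.finrank R M ∧ (Module.Finite R M → Module.rank R S < Cardinal.aleph0) := by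
  have hsm : ∀ (o : O) (y : O ⧸ J), o • y = Ideal.Quotient.mk J o * y := by
    intro o y
    obtain ⟨y, rfl⟩ := Ideal.Quotient.mk_surjective y
    rfl
  obtain ⟨ε', hε'⟩ := hε.exists_right_inv
  have hcn : ∀ (n : ℕ) (x : M), r₀ ^ n • x = (c * G) ^ n • x := by
    intro n
    induction n with
    | zero =>
      intro x
      rw [pow_zero, pow_zero, one_smul, one_smul]
    | succ n ih =>
      intro x
      rw [pow_succ, mul_smul, hc, ih, ← mul_smul, ← pow_succ]
  have htfn : ∀ (n : ℕ) (x : M), r₀ ^ n • x = 0 → x = 0 := by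
    intro n
    induction n with
    | zero =>
      intro x hx
      rw [pow_zero, one_smul] at hx
      exact hx
    | succ n ih =>
      intro x hx
      rw [pow_succ, mul_smul] at hx
      exact htf x (ih _ hx)
  obtain ⟨f, hf⟩ : ∃ f : M →ₗ[R] S, ∀ x, f x = algebraMap (O ⧸ J) S (φ x) :=
    ⟨(IsScalarTower.toAlgHom R (O ⧸ J) S).toLinearMap ∘ₗ (φ.restrictScalars R), fun x => rfl⟩
  have hinj : Function.Injective f := by
    rw [injective_iff_map_eq_zero]
    intro x hx
    rw [hf, IsLocalization.map_eq_zero_iff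
      (Submonoid.powers (Ideal.Quotient.mk J (ε * G)))] at hx
    obtain ⟨⟨_, n, rfl⟩, hm⟩ := hx
    have h2 : ((ε * G) ^ n) • φ x = 0 := by
      rw [hsm, map_pow]
      exact hm
    have h3 : φ (((ε * G) ^ n) • x) = 0 := by
      rw [map_smul]
      exact h2
    have h4 : G • (((ε * G) ^ n) • x) = 0 := by
      rw [← hψφ, h3, map_zero]
    have h5 : ε' ^ n * (G * (ε * G) ^ n) = G ^ (n + 1) := by
      have h6 : ε' ^ n * ε ^ n = 1 := by
        rw [← mul_pow, mul_comm ε' ε, hε', one_pow]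
      calc ε' ^ n * (G * (ε * G) ^ n) = (ε' ^ n * ε ^ n) * G ^ (n + 1) := by
            rw [mul_pow, pow_succ]
            ring
        _ = G ^ (n + 1) := by rw [h6, one_mul]
    have h7 : G ^ (n + 1) • x = 0 := by
      rw [← h5, mul_smul, mul_smul, h4, smul_zero]
    apply htfn (n + 1)
    rw [hcn, mul_pow, mul_smul, h7, smul_zero]
  have hE : algebraMap (O ⧸ J) S (Ideal.Quotient.mk J ε) *
      algebraMap (O ⧸ J) S (Ideal.Quotient.mk J ε') = 1 := by
    rw [← map_mul, ← map_mul, hε', map_one, map_one]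
  have hg : algebraMap (O ⧸ J) S (Ideal.Quotient.mk J (ε * G)) =
      algebraMap (O ⧸ J) S (Ideal.Quotient.mk J ε) *
      algebraMap (O ⧸ J) S (Ideal.Quotient.mk J G) := by
    rw [map_mul, map_mul]
  have hΓ : IsUnit (algebraMap (O ⧸ J) S (Ideal.Quotient.mk J G)) := by
    have h1 : IsUnit (algebraMap (O ⧸ J) S (Ideal.Quotient.mk J (ε * G))) :=
      IsLocalization.map_units S (⟨_, Submonoid.mem_powers (Ideal.Quotient.mk J (ε * G))⟩ :
        Submonoid.powers (Ideal.Quotient.mk J (ε * G)))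
    rw [hg] at h1
    exact isUnit_of_mul_isUnit_right h1
  have hρ : algebraMap R S r₀ = algebraMap (O ⧸ J) S (Ideal.Quotient.mk J c) *
      algebraMap (O ⧸ J) S (Ideal.Quotient.mk J G) := by
    have h1 : f (ψ 1) = algebraMap (O ⧸ J) S (Ideal.Quotient.mk J G) := by
      rw [hf, hφψ, hsm, mul_one]
    have h2 : f (r₀ • ψ 1) = algebraMap (O ⧸ J) S (Ideal.Quotient.mk J c) *
        algebraMap (O ⧸ J) S (Ideal.Quotient.mk J G) *
        algebraMap (O ⧸ J) S (Ideal.Quotient.mk J G) := by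
      rw [hf, hc, map_smul, hφψ, hsm, hsm, mul_one, map_mul, map_mul, map_mul]
    rw [map_smul, h1, Algebra.smul_def] at h2
    exact hΓ.mul_right_cancel h2
  have hsurj : ∀ z : S, ∃ (n : ℕ) (x : M), r₀ ^ n • z = f x := by
    intro z
    obtain ⟨⟨y, ⟨_, n, rfl⟩⟩, hz⟩ :=
      IsLocalization.surj (Submonoid.powers (Ideal.Quotient.mk J (ε * G))) z
    have hz' : z * (algebraMap (O ⧸ J) S (Ideal.Quotient.mk J ε) *
        algebraMap (O ⧸ J) S (Ideal.Quotient.mk J G)) ^ n = algebraMap (O ⧸ J) S y := by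
      rw [← hg, ← map_pow]
      exact hz
    refine ⟨n + 1, (c ^ (n + 1) * ε' ^ n) • ψ y, ?_⟩
    rw [hf, map_smul, hφψ, hsm, hsm, Algebra.smul_def, map_pow, hρ, map_mul, map_mul, map_mul,
      map_mul, map_pow, map_pow, map_pow, map_pow, ← hz']
    have h1 : algebraMap (O ⧸ J) S (Ideal.Quotient.mk J ε') ^ n *
        algebraMap (O ⧸ J) S (Ideal.Quotient.mk J ε) ^ n = 1 := by
      rw [← mul_pow, mul_comm, hE, one_pow]
    calc (algebraMap (O ⧸ J) S (Ideal.Quotient.mk J c) *
          algebraMap (O ⧸ J) S (Ideal.Quotient.mk J G)) ^ (n + 1) * z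
        = (algebraMap (O ⧸ J) S (Ideal.Quotient.mk J ε') ^ n *
          algebraMap (O ⧸ J) S (Ideal.Quotient.mk J ε) ^ n) *
          ((algebraMap (O ⧸ J) S (Ideal.Quotient.mk J c) *
          algebraMap (O ⧸ J) S (Ideal.Quotient.mk J G)) ^ (n + 1) * z) := by rw [h1, one_mul]
      _ = _ := by
          rw [mul_pow, mul_pow]
          ring
  have hrk : Module.rank R (S ⧸ LinearMap.range f) = 0 := by
    rw [rank_eq_zero_iff]
    intro q
    obtain ⟨z, rfl⟩ := Submodule.Quotient.mk_surjective _ q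
    obtain ⟨n, x, hx⟩ := hsurj z
    refine ⟨r₀ ^ n, pow_ne_zero n hr₀, ?_⟩
    rw [← Submodule.Quotient.mk_smul, hx, Submodule.Quotient.mk_eq_zero]
    exact ⟨x, rfl⟩
  have h1 := rank_quotient_add_rank_of_isDomain (LinearMap.range f)
  rw [hrk, zero_add] at h1
  have h2 : Module.finrank R S = Module.finrank R (LinearMap.range f) := by
    unfold Module.finrank
    rw [h1]
  refine ⟨?_, ?_⟩
  · rw [h2]
    exact (LinearEquiv.ofInjective f hinj).symm.finrank_eq
  · intro hM
    have h3 : Module.Finite R (LinearMap.range f) := Module.Finite.range f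
    rw [← h1]
    exact Module.rank_lt_aleph0 R (LinearMap.range f)

theorem finrank_away {R O : Type*} [CommRing R] [IsDomain R] [CommRing O] [Algebra R O] (J : Ideal O)
    {M : Type*} [AddCommGroup M] [Module O M] [Module R M] [IsScalarTower R O M]
    (G ε : O) (hε : IsUnit ε)
    (φ : M →ₗ[O] O ⧸ J) (ψ : O ⧸ J →ₗ[O] M) (hψφ : ∀ x, ψ (φ x) = G • x) (hφψ : ∀ y, φ (ψ y) = G • y)
    (r₀ : R) (hr₀ : r₀ ≠ 0) (c : O) (hc : ∀ x : M, r₀ • x = (c * G) • x)
    (htf : ∀ x : M, r₀ • x = 0 → x = 0) :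
    Module.finrank R (Localization.Away (Ideal.Quotient.mk J (ε * G))) = Module.finrank R M ∧
    (Module.Finite R M → Module.rank R (Localization.Away (Ideal.Quotient.mk J (ε * G))) < Cardinal.aleph0) := by
  exact R3_gen J G ε hε φ ψ hψφ hφψ r₀ hr₀ c hc htf
    (Localization.Away (Ideal.Quotient.mk J (ε * G)))

end Pool.Agent.LibMC10
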