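import Mathlib

set_option autoImplicit false

/-! ROW MC10 R4 (MEDIUM, Mathlib only). A linear form with values in the residue field at a prime of the support.
PLAN. p is in the support of the finite module M (annihilator ≤ p: Module.mem_support_iff_of_finite), so p.ResidueField ⊗[A] M is
nontrivial (Mathlib: Module.mem_support_iff_nontrivial_residueField_tensorProduct). Take x with 1 ⊗ x ≠ 0: since u acts invertibly on the
tensor product (u ∉ p) and u • x = a • b, the element 1 ⊗ b is not 0 (else u • (1 ⊗ x) = 0 for all x, tensor product zero). Choose a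
p.ResidueField-linear form sending 1 ⊗ b to 1 (Module.exists_dual_forall_apply..., exists_dual_map_eq... or a complement) and compose with
x ↦ 1 ⊗ x (TensorProduct.mk). -/

namespace Pool.Agent.LibMC10

open TensorProduct in
theorem exists_form {A : Type*} [CommRing A] {M : Type*} [AddCommGroup M] [Module A M] [Module.Finite A M] (b : M)
    (p : Ideal A) [p.IsPrime] (hp : Module.annihilator A M ≤ p) (u : A) (hu : u ∉ p)
    (h : ∀ x : M, ∃ a : A, u • x = a • b) :
    ∃ lam : M →ₗ[A] p.ResidueField, lam b = 1 := by
  have hnt : Nontrivial (p.ResidueField ⊗[A] M) :=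
    (Module.mem_support_iff_nontrivial_residueField_tensorProduct (⟨p, inferInstance⟩ : PrimeSpectrum A)).1
      (Module.mem_support_iff_of_finite.2 hp)
  have hu0 : algebraMap A p.ResidueField u ≠ 0 := by
    intro h0
    exact hu ((Ideal.algebraMap_residueField_eq_zero).1 h0)
  have hb : (1 : p.ResidueField) ⊗ₜ[A] b ≠ 0 := by
    intro hb0
    have h1 : ∀ x : M, (1 : p.ResidueField) ⊗ₜ[A] x = 0 := by
      intro x
      obtain ⟨a, ha⟩ := h x
      have h2 : (algebraMap A p.ResidueField u) • ((1 : p.ResidueField) ⊗ₜ[A] x) = 0 := by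
        rw [algebraMap_smul, ← TensorProduct.tmul_smul, ha, TensorProduct.tmul_smul, hb0, smul_zero]
      exact (smul_eq_zero.1 h2).resolve_left hu0
    have h3 : ∀ t : p.ResidueField ⊗[A] M, t = 0 := by
      intro t
      induction t using TensorProduct.induction_on with
      | zero => rfl
      | tmul c x =>
        have h4 : c ⊗ₜ[A] x = c • ((1 : p.ResidueField) ⊗ₜ[A] x) := by
          rw [TensorProduct.smul_tmul', smul_eq_mul, mul_one]
        rw [h4, h1, smul_zero]
      | add s t hs ht => rw [hs, ht, add_zero]
    obtain ⟨s, t, hst⟩ := hnt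
    exact hst (by rw [h3 s, h3 t])
  obtain ⟨f, hf⟩ : ∃ f : Module.Dual p.ResidueField (p.ResidueField ⊗[A] M), f ((1 : p.ResidueField) ⊗ₜ[A] b) ≠ 0 := by
    by_contra hcon
    push Not at hcon
    exact hb ((Module.forall_dual_apply_eq_zero_iff p.ResidueField _).1 hcon)
  refine ⟨(((f ((1 : p.ResidueField) ⊗ₜ[A] b))⁻¹ • f).restrictScalars A) ∘ₗ
    (TensorProduct.mk A p.ResidueField M 1), ?_⟩
  simp only [LinearMap.coe_comp, LinearMap.coe_restrictScalars, Function.comp_apply, TensorProduct.mk_apply,
    LinearMap.smul_apply, smul_eq_mul]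
  exact inv_mul_cancel₀ hf

end Pool.Agent.LibMC10
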