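import Pool.Agent.LibMC10.L6
import Pool.Agent.LibMC10.R4

set_option autoImplicit false

/-! ROW MC10 R5 (SHORT/MEDIUM; uses L6, R4). The special fibre M₀ has finite length.
PLAN. Every prime p over I = annihilator of M₀ is the maximal ideal m, hence m ≤ radical I and m^K' ≤ I
(Ideal.radical_eq_sInf, Ideal.exists_radical_pow_le_of_fg). Let I ≤ p.
Case G ∉ p: for every j, (∂_j (ε G)) * G ∈ I ≤ p, so ∂_j (ε G) ∈ p; L6 (lemC; constantCoeff (ε G) = 0) gives ε G ∈ p, so G ∈ p (ε unit),
contradiction. Case G ∈ p: if p ≠ m there is u ∈ m^K, u ∉ p (p prime: m^K ≤ p would give m ≤ p); R4 gives lam with lam b = 1, and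
hE gives G ∉ p, contradiction. -/

namespace Pool.Agent.LibMC10

open IsLocalRing

theorem special_finite {k : Type*} [Field k] [CharZero k] {N : ℕ} {M₀ : Type*} [AddCommGroup M₀]
    [Module (MvPowerSeries (Fin N) k) M₀] [Module.Finite (MvPowerSeries (Fin N) k) M₀] (b : M₀)
    (G ε : MvPowerSeries (Fin N) k) (hε : IsUnit ε) (hG : MvPowerSeries.constantCoeff G = 0)
    (hJ : ∀ (j : Fin N) (x : M₀), (MvPowerSeries.pderiv k j (ε * G) * G) • x = 0)
    (hE : ∀ (p : Ideal (MvPowerSeries (Fin N) k)) [p.IsPrime]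
      (lam : M₀ →ₗ[MvPowerSeries (Fin N) k] p.ResidueField), lam b = 1 → G ∉ p)
    (K : ℕ) (hK : ∀ u ∈ maximalIdeal (MvPowerSeries (Fin N) k) ^ K, ∀ x : M₀,
      ∃ a : MvPowerSeries (Fin N) k, u • x = a • b) :
    ∃ K' : ℕ, ∀ u ∈ maximalIdeal (MvPowerSeries (Fin N) k) ^ K', ∀ x : M₀, u • x = 0 := by
  have key : ∀ p : Ideal (MvPowerSeries (Fin N) k), p.IsPrime →
      Module.annihilator (MvPowerSeries (Fin N) k) M₀ ≤ p → maximalIdeal (MvPowerSeries (Fin N) k) ≤ p := by
    intro p hp hIp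
    have := hp
    by_cases hGp : G ∈ p
    · by_contra hm
      have hex : ∃ u ∈ maximalIdeal (MvPowerSeries (Fin N) k) ^ K, u ∉ p := by
        by_contra hcon
        push Not at hcon
        exact hm (Ideal.IsPrime.le_of_pow_le (n := K) hcon)
      obtain ⟨u, hu, hup⟩ := hex
      obtain ⟨lam, hlam⟩ := exists_form b p hIp u hup (hK u hu)
      exact hE p lam hlam hGp
    · exfalso
      have hc0 : MvPowerSeries.constantCoeff (ε * G) = 0 := by rw [map_mul, hG, mul_zero]
      have h1 : ∀ j, MvPowerSeries.pderiv k j (ε * G) ∈ p := by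
        intro j
        have h2 : MvPowerSeries.pderiv k j (ε * G) * G ∈
            Module.annihilator (MvPowerSeries (Fin N) k) M₀ := by
          rw [Module.mem_annihilator]
          exact hJ j
        exact (hp.mem_or_mem (hIp h2)).resolve_right hGp
      rcases hp.mem_or_mem (lemC (ε * G) hc0 p h1) with h4 | h4
      · exact hp.ne_top (Ideal.eq_top_of_isUnit_mem _ h4 hε)
      · exact hGp h4
  have hrad : maximalIdeal (MvPowerSeries (Fin N) k) ≤
      (Module.annihilator (MvPowerSeries (Fin N) k) M₀).radical := by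
    rw [Ideal.radical_eq_sInf]
    exact le_sInf (fun J hJ => key J hJ.2 hJ.1)
  obtain ⟨n, hn⟩ := Ideal.exists_radical_pow_le_of_fg
    (Module.annihilator (MvPowerSeries (Fin N) k) M₀) (IsNoetherian.noetherian _)
  refine ⟨n, fun u hu x => ?_⟩
  exact Module.mem_annihilator.1 (hn (Ideal.pow_right_mono hrad n hu)) x

end Pool.Agent.LibMC10
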