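import Pool.Agent.LibMC10.R4

set_option autoImplicit false

/-! ROW MC10 R6 (SHORT/MEDIUM; uses R4). A power of s acts on M as a multiple of G.
PLAN. s is in the radical of annihilator M ⊔ span {G}: let p be a prime over it (Ideal.radical_eq_sInf). If s ∉ p then u = s^r ∉ p, R4 gives
lam with lam b = 1, hE gives G ∉ p, contradiction. So s^n = a + c * G with a in the annihilator. -/

namespace Pool.Agent.LibMC10

theorem pow_mem {A : Type*} [CommRing A] {M : Type*} [AddCommGroup M] [Module A M] [Module.Finite A M] (b : M)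
    (s G : A) (hE : ∀ (p : Ideal A) [p.IsPrime] (lam : M →ₗ[A] p.ResidueField), lam b = 1 → G ∉ p)
    (r : ℕ) (hr : ∀ x : M, ∃ a : A, s ^ r • x = a • b) :
    ∃ (n : ℕ) (c : A), ∀ x : M, s ^ n • x = (c * G) • x := by
  have h1 : s ∈ (Module.annihilator A M ⊔ Ideal.span {G}).radical := by
    rw [Ideal.radical_eq_sInf, Submodule.mem_sInf]
    rintro (p : Ideal A) ⟨hp, hpp⟩
    have hpi : Ideal.IsPrime p := hpp
    by_contra hs
    have hu : s ^ r ∉ p := fun h => hs (hpi.mem_of_pow_mem r h)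
    obtain ⟨lam, hlam⟩ := exists_form b p (le_sup_left.trans hp) (s ^ r) hu hr
    exact hE p lam hlam (hp (Ideal.mem_sup_right (Ideal.mem_span_singleton_self G)))
  obtain ⟨n, hn⟩ := Ideal.mem_radical_iff.1 h1
  obtain ⟨a, ha, g, hg, hag⟩ := Submodule.mem_sup.1 hn
  obtain ⟨c, rfl⟩ := Ideal.mem_span_singleton'.1 hg
  refine ⟨n, c, fun x => ?_⟩
  rw [← hag, add_smul, Module.mem_annihilator.1 ha x, zero_add]

end Pool.Agent.LibMC10
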