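import Pool.Agent.LibMC10.R1
import Pool.Agent.LibMC10.R2
import Pool.Agent.LibMC10.R3
import Pool.Agent.LibMC10.R5
import Pool.Agent.LibMC10.R6
import Pool.Agent.LibMF6.Defs

set_option autoImplicit false

/-! R7: abstract assembly of the rank statement. -/

namespace Pool.Agent.LibMC10

open IsLocalRing Pool.Agent.LibMF6

private theorem R7_sp_pderiv {k : Type*} [Field k] {N : ℕ} (j : Fin N)
    (f : MvPowerSeries (Fin N) (PowerSeries k)) :
    sp k (MvPowerSeries.pderiv (PowerSeries k) j f) = MvPowerSeries.pderiv k j (sp k f) := by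
  ext n
  unfold sp
  rw [MvPowerSeries.coeff_map, MvPowerSeries.coeff_pderiv, MvPowerSeries.coeff_pderiv,
    MvPowerSeries.coeff_map]
  simp

private theorem R7_isUnit {k : Type*} [Field k] {N : ℕ}
    (a : MvPowerSeries (Fin N) (PowerSeries k)) (h : IsUnit (sp k a)) : IsUnit a := by
  rw [MvPowerSeries.isUnit_iff_constantCoeff, PowerSeries.isUnit_iff_constantCoeff]
  have h1 := (MvPowerSeries.isUnit_iff_constantCoeff).mp h
  unfold sp at h1
  rwa [MvPowerSeries.constantCoeff_map] at h1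

private theorem R7_pow {k : Type*} [Field k] {N : ℕ} (K : ℕ)
    (a : MvPowerSeries (Fin N) (PowerSeries k))
    (ha : a ∈ maximalIdeal (MvPowerSeries (Fin N) (PowerSeries k)) ^ K) :
    sp k a ∈ maximalIdeal (MvPowerSeries (Fin N) k) ^ K := by
  have h1 : (maximalIdeal (MvPowerSeries (Fin N) (PowerSeries k))).map (sp k (σ := Fin N)) ≤
      maximalIdeal (MvPowerSeries (Fin N) k) := by
    rw [Ideal.map_le_iff_le_comap]
    intro x hx
    rw [Ideal.mem_comap, mem_maximalIdeal, mem_nonunits_iff]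
    intro hu
    exact (mem_maximalIdeal x).mp hx (R7_isUnit x hu)
  have h2 := Ideal.pow_right_mono h1 K
  rw [← Ideal.map_pow] at h2
  exact h2 (Ideal.mem_map_of_mem _ ha)

theorem rank_abstract {k : Type*} [Field k] [CharZero k] {N : ℕ}
    {M : Type*} [AddCommGroup M] [Module (MvPowerSeries (Fin N) (PowerSeries k)) M]
    [Module.Finite (MvPowerSeries (Fin N) (PowerSeries k)) M]
    [Module (PowerSeries k) M] [IsScalarTower (PowerSeries k) (MvPowerSeries (Fin N) (PowerSeries k)) M]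
    {M₀ : Type*} [AddCommGroup M₀] [Module (MvPowerSeries (Fin N) k) M₀]
    [Module.Finite (MvPowerSeries (Fin N) k) M₀] [Module k M₀] [IsScalarTower k (MvPowerSeries (Fin N) k) M₀]
    (π : M →+ M₀) (hπ : Function.Surjective π)
    (hsmul : ∀ (a : MvPowerSeries (Fin N) (PowerSeries k)) (x : M), π (a • x) = sp k a • π x)
    (hker : ∀ x : M, π x = 0 ↔ ∃ y : M, x = (PowerSeries.X : PowerSeries k) • y)
    (G ε : MvPowerSeries (Fin N) (PowerSeries k)) (hε : IsUnit ε)
    (hG0 : MvPowerSeries.constantCoeff (sp k G) = 0) (b : M)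
    (φ : M →ₗ[MvPowerSeries (Fin N) (PowerSeries k)] (MvPowerSeries (Fin N) (PowerSeries k)) ⧸ JJ k (ε * G))
    (ψ : ((MvPowerSeries (Fin N) (PowerSeries k)) ⧸ JJ k (ε * G)) →ₗ[MvPowerSeries (Fin N) (PowerSeries k)] M)
    (hψφ : ∀ x, ψ (φ x) = G • x) (hφψ : ∀ y, φ (ψ y) = G • y)
    (hE : ∀ (p : Ideal (MvPowerSeries (Fin N) (PowerSeries k))) [p.IsPrime]
      (lam : M →ₗ[MvPowerSeries (Fin N) (PowerSeries k)] p.ResidueField), lam b = 1 → G ∉ p)
    (hE₀ : ∀ (p : Ideal (MvPowerSeries (Fin N) k)) [p.IsPrime]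
      (lam : M₀ →ₗ[MvPowerSeries (Fin N) k] p.ResidueField), lam (π b) = 1 → sp k G ∉ p)
    (K : ℕ) (hK : ∀ u ∈ maximalIdeal (MvPowerSeries (Fin N) k) ^ K, ∀ x : M₀,
      ∃ a : MvPowerSeries (Fin N) k, u • x = a • π b)
    (r : ℕ) (hr : ∀ x : M, ∃ a : MvPowerSeries (Fin N) (PowerSeries k),
      (PowerSeries.X : PowerSeries k) ^ r • x = a • b)
    (hcore : (∀ i : Fin N, ∃ e : ℕ, ∀ x : M, ∃ x' : M,
        ((MvPowerSeries.X i : MvPowerSeries (Fin N) (PowerSeries k)) ^ e) • x = (PowerSeries.X : PowerSeries k) • x') →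
      ∀ x : M, (PowerSeries.X : PowerSeries k) • x = 0 → x = 0) :
    Module.Finite k M₀ ∧ siersma k (ε * G) = Module.finrank k M₀ ∧
      Module.rank (PowerSeries k) (Localization.Away (Ideal.Quotient.mk (JJ k (ε * G)) (ε * G))) < Cardinal.aleph0 := by
  classical
  have hJ₀ : ∀ (j : Fin N) (x₀ : M₀),
      (MvPowerSeries.pderiv k j (sp k ε * sp k G) * sp k G) • x₀ = 0 := by
    intro j x₀
    obtain ⟨x, rfl⟩ := hπ x₀
    rw [← map_mul, ← R7_sp_pderiv, ← map_mul, ← hsmul, mul_smul, ← hψφ, ← map_smul]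
    obtain ⟨y, hy⟩ := Ideal.Quotient.mk_surjective (φ x)
    have h0 : MvPowerSeries.pderiv (PowerSeries k) j (ε * G) • φ x = 0 := by
      rw [← hy]
      change Ideal.Quotient.mk (JJ k (ε * G)) (MvPowerSeries.pderiv (PowerSeries k) j (ε * G) * y) = 0
      rw [Ideal.Quotient.eq_zero_iff_mem]
      exact Ideal.mul_mem_right _ _ (Ideal.subset_span ⟨j, rfl⟩)
    rw [h0, map_zero, map_zero]
  obtain ⟨K', hK'⟩ := special_finite (π b) (sp k G) (sp k ε) (hε.map (sp k)) hG0 hJ₀ hE₀ K hK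
  have hms : ∀ a ∈ maximalIdeal (MvPowerSeries (Fin N) (PowerSeries k)) ^ K', ∀ x : M,
      ∃ x' : M, a • x = (PowerSeries.X : PowerSeries k) • x' := by
    intro a ha x
    rw [← hker, hsmul]
    exact hK' _ (R7_pow K' a ha) _
  have hreg : ∀ x : M, (PowerSeries.X : PowerSeries k) • x = 0 → x = 0 := by
    refine hcore (fun i => ⟨K', fun x => hms _ (Ideal.pow_mem_pow ?_ K') x⟩)
    rw [mem_maximalIdeal, mem_nonunits_iff]
    intro hu
    have h1 := (MvPowerSeries.isUnit_iff_constantCoeff).mp hu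
    rw [MvPowerSeries.constantCoeff_X] at h1
    exact not_isUnit_zero h1
  obtain ⟨hfin, hfree⟩ := finite_free K' hms hreg
  obtain ⟨hfin₀, hrk⟩ := finrank_special (k := k) π hπ (fun a x => by
    have h1 := hsmul (algebraMap (PowerSeries k) (MvPowerSeries (Fin N) (PowerSeries k)) (PowerSeries.C a)) x
    rw [algebraMap_smul] at h1
    rw [h1]
    have h2 : sp k (algebraMap (PowerSeries k) (MvPowerSeries (Fin N) (PowerSeries k)) (PowerSeries.C a)) =
        algebraMap k (MvPowerSeries (Fin N) k) a := by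
      unfold sp
      rw [MvPowerSeries.algebraMap_apply, MvPowerSeries.algebraMap_apply]
      simp
    rw [h2, algebraMap_smul]) hker
  refine ⟨hfin₀, ?_⟩
  rw [← hrk]
  obtain ⟨n, c, hc⟩ := pow_mem b (algebraMap (PowerSeries k) (MvPowerSeries (Fin N) (PowerSeries k)) PowerSeries.X)
    G hE r (fun x => by
      obtain ⟨a, ha⟩ := hr x
      refine ⟨a, ?_⟩
      rw [← ha, ← map_pow, algebraMap_smul])
  unfold siersma
  have hcs : ∀ x : M, ((PowerSeries.X : PowerSeries k) ^ n) • x = (c * G) • x := by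
    intro x
    rw [← hc x, ← map_pow, algebraMap_smul]
  have htf : ∀ x : M, ((PowerSeries.X : PowerSeries k) ^ n) • x = 0 → x = 0 := by
    intro x hx
    clear hc hcs
    induction n with
    | zero => simpa using hx
    | succ n ih =>
      rw [pow_succ', mul_smul] at hx
      exact ih (hreg _ hx)
  have hfr := finrank_away (R := PowerSeries k) (JJ k (ε * G)) G ε hε φ ψ hψφ hφψ
    ((PowerSeries.X : PowerSeries k) ^ n) (pow_ne_zero n PowerSeries.X_ne_zero) c hcs htf
  exact ⟨hfr.1, hfr.2 hfin⟩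

end Pool.Agent.LibMC10
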