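import Pool.Agent.LibMC10.R7

set_option autoImplicit false

/-! R8: a finite dimensional module over a Noetherian local k-algebra is killed by a power of the maximal ideal;
the rank statement for one module `M` over `k[[s]][[y]]`, special fibre `QuotSMulTop s M`. -/

namespace Pool.Agent.LibMC10

open IsLocalRing Pool.Agent.LibMF6

theorem pow_smul_eq_zero {k O V : Type*} [Field k] [CommRing O] [IsLocalRing O] [IsNoetherianRing O] [Algebra k O]
    [AddCommGroup V] [Module O V] [Module k V] [IsScalarTower k O V] [Module.Finite k V] :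
    ∃ K : ℕ, ∀ u ∈ maximalIdeal O ^ K, ∀ x : V, u • x = 0 := by
  have : Module.Finite O V := Module.Finite.of_restrictScalars_finite k O V
  let f : ℕ →o (Submodule O V)ᵒᵈ := ⟨fun n => OrderDual.toDual ((maximalIdeal O ^ n) • (⊤ : Submodule O V)), by
    intro a b hab
    exact Submodule.smul_mono_left (Ideal.pow_le_pow_right hab)⟩
  have hart : IsArtinian k V := inferInstance
  have hart' : IsArtinian O V := by
    refine ⟨?_⟩
    have h1 := hart.wf
    refine WellFounded.mono (r := InvImage (· < ·) (fun p : Submodule O V => p.restrictScalars k))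
      (InvImage.wf _ h1) ?_
    intro a b hab
    exact hab
  obtain ⟨K, hK⟩ := IsArtinian.monotone_stabilizes f
  refine ⟨K, ?_⟩
  have h1 : (maximalIdeal O ^ K) • (⊤ : Submodule O V) = (maximalIdeal O ^ (K + 1)) • (⊤ : Submodule O V) :=
    hK (K + 1) (Nat.le_succ K)
  have h2 : (maximalIdeal O ^ K) • (⊤ : Submodule O V) = ⊥ := by
    refine Submodule.eq_bot_of_le_smul_of_le_jacobson_bot (maximalIdeal O) _ ?_ ?_ ?_
    · exact (IsNoetherian.noetherian _)
    · rw [pow_succ', mul_smul] at h1
      exact le_of_eq h1
    · exact IsLocalRing.maximalIdeal_le_jacobson _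
  intro u hu x
  have h3 : u • x ∈ (maximalIdeal O ^ K) • (⊤ : Submodule O V) :=
    Submodule.smul_mem_smul hu Submodule.mem_top
  rw [h2] at h3
  exact h3

end Pool.Agent.LibMC10
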