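import Pool.Agent.LibMC10.R8

set_option autoImplicit false

/-! R9: the rank statement for one module `M` over `k[[s]][[y]]`, special fibre `QuotSMulTop s M`. -/

namespace Pool.Agent.LibMC10

open IsLocalRing Pool.Agent.LibMF6
open scoped Pointwise

universe u v

/-- the section of `sp` -/
noncomputable def sec (k : Type*) [Field k] {σ : Type*} :
    MvPowerSeries σ k →+* MvPowerSeries σ (PowerSeries k) := MvPowerSeries.map PowerSeries.C

theorem sp_sec {k : Type*} [Field k] {σ : Type*} (a : MvPowerSeries σ k) : sp k (sec k a) = a := by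
  ext n
  unfold sp sec
  rw [MvPowerSeries.coeff_map, MvPowerSeries.coeff_map]
  simp

/-- the kernel of `sp` -/
theorem exists_of_sp_eq_zero {k : Type*} [Field k] {σ : Type*} (a : MvPowerSeries σ (PowerSeries k))
    (h : sp k a = 0) : ∃ c : MvPowerSeries σ (PowerSeries k), a = MvPowerSeries.C (PowerSeries.X) * c := by
  have h1 : ∀ n : σ →₀ ℕ, ∃ c : PowerSeries k, MvPowerSeries.coeff n a = PowerSeries.X * c := by
    intro n
    have h2 : PowerSeries.constantCoeff (MvPowerSeries.coeff n a) = 0 := by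
      have h3 := congrArg (MvPowerSeries.coeff n) h
      unfold sp at h3
      rwa [MvPowerSeries.coeff_map, map_zero] at h3
    exact PowerSeries.X_dvd_iff.mpr h2
  choose c hc using h1
  refine ⟨fun n => c n, ?_⟩
  ext1 n
  rw [hc n, MvPowerSeries.coeff_C_mul]
  rfl

theorem sec_isUnit {k : Type*} [Field k] {N : ℕ} (a : MvPowerSeries (Fin N) k) (h : IsUnit (sec k a)) : IsUnit a := by
  have h1 := h.map (sp k (σ := Fin N))
  rwa [sp_sec] at h1

theorem sec_pow {k : Type*} [Field k] {N : ℕ} (K : ℕ) (a : MvPowerSeries (Fin N) k)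
    (ha : a ∈ maximalIdeal (MvPowerSeries (Fin N) k) ^ K) :
    sec k a ∈ maximalIdeal (MvPowerSeries (Fin N) (PowerSeries k)) ^ K := by
  have h1 : (maximalIdeal (MvPowerSeries (Fin N) k)).map (sec k (σ := Fin N)) ≤
      maximalIdeal (MvPowerSeries (Fin N) (PowerSeries k)) := by
    rw [Ideal.map_le_iff_le_comap]
    intro x hx
    rw [Ideal.mem_comap, mem_maximalIdeal, mem_nonunits_iff]
    intro hu
    exact (mem_maximalIdeal x).mp hx (sec_isUnit x hu)
  have h2 := Ideal.pow_right_mono h1 K
  rw [← Ideal.map_pow] at h2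
  exact h2 (Ideal.mem_map_of_mem _ ha)

theorem algebraMap_X {k : Type*} [Field k] {N : ℕ} :
    algebraMap (PowerSeries k) (MvPowerSeries (Fin N) (PowerSeries k)) PowerSeries.X =
      MvPowerSeries.C (PowerSeries.X : PowerSeries k) := by
  rw [MvPowerSeries.algebraMap_apply]
  rfl

theorem rank_one {k : Type u} [Field k] [CharZero k] {N : ℕ}
    {M : Type v} [AddCommGroup M] [Module (MvPowerSeries (Fin N) (PowerSeries k)) M]
    [Module.Finite (MvPowerSeries (Fin N) (PowerSeries k)) M]
    [Module (PowerSeries k) M] [IsScalarTower (PowerSeries k) (MvPowerSeries (Fin N) (PowerSeries k)) M]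
    [Module k M] [IsScalarTower k (MvPowerSeries (Fin N) (PowerSeries k)) M]
    (G ε : MvPowerSeries (Fin N) (PowerSeries k)) (hε : IsUnit ε)
    (hG0 : MvPowerSeries.constantCoeff (sp k G) = 0) (b : M)
    (φ : M →ₗ[MvPowerSeries (Fin N) (PowerSeries k)] (MvPowerSeries (Fin N) (PowerSeries k)) ⧸ JJ k (ε * G))
    (ψ : ((MvPowerSeries (Fin N) (PowerSeries k)) ⧸ JJ k (ε * G)) →ₗ[MvPowerSeries (Fin N) (PowerSeries k)] M)
    (hψφ : ∀ x, ψ (φ x) = G • x) (hφψ : ∀ y, φ (ψ y) = G • y)
    (hE : ∀ (F : Type u) [Field F] [CharZero F] [Algebra (MvPowerSeries (Fin N) (PowerSeries k)) F]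
      (lam : M →ₗ[MvPowerSeries (Fin N) (PowerSeries k)] F),
      algebraMap (MvPowerSeries (Fin N) (PowerSeries k)) F G = 0 → lam b = 0)
    (hA : Module.Finite k (QuotSMulTop (MvPowerSeries.C (PowerSeries.X : PowerSeries k) : MvPowerSeries (Fin N) (PowerSeries k))
      (M ⧸ Submodule.span (MvPowerSeries (Fin N) (PowerSeries k)) {b})))
    (r : ℕ) (hr : ∀ x : M, ∃ a : MvPowerSeries (Fin N) (PowerSeries k),
      (MvPowerSeries.C (PowerSeries.X : PowerSeries k) : MvPowerSeries (Fin N) (PowerSeries k)) ^ r • x = a • b)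
    (hcore : (∀ i : Fin N, ∃ e : ℕ, ∀ x : M, ∃ x' : M,
        ((MvPowerSeries.X i : MvPowerSeries (Fin N) (PowerSeries k)) ^ e) • x =
          (MvPowerSeries.C (PowerSeries.X : PowerSeries k) : MvPowerSeries (Fin N) (PowerSeries k)) • x') →
      ∀ x : M, (MvPowerSeries.C (PowerSeries.X : PowerSeries k) : MvPowerSeries (Fin N) (PowerSeries k)) • x = 0 → x = 0) :
    Module.Finite k (QuotSMulTop (MvPowerSeries.C (PowerSeries.X : PowerSeries k) : MvPowerSeries (Fin N) (PowerSeries k)) M) ∧
    siersma k (ε * G) = Module.finrank k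
      (QuotSMulTop (MvPowerSeries.C (PowerSeries.X : PowerSeries k) : MvPowerSeries (Fin N) (PowerSeries k)) M) ∧
    Module.rank (PowerSeries k) (Localization.Away (Ideal.Quotient.mk (JJ k (ε * G)) (ε * G))) < Cardinal.aleph0 := by
  classical
  set s : MvPowerSeries (Fin N) (PowerSeries k) := MvPowerSeries.C (PowerSeries.X : PowerSeries k) with hs
  have hX : ∀ x : M, (PowerSeries.X : PowerSeries k) • x = s • x := by
    intro x
    rw [hs, ← algebraMap_X, algebraMap_smul]
  let π : M →ₗ[MvPowerSeries (Fin N) (PowerSeries k)] QuotSMulTop s M := Submodule.mkQ _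
  have hπ : Function.Surjective π := Submodule.mkQ_surjective _
  have hker : ∀ x : M, π x = 0 ↔ ∃ y : M, x = s • y := by
    intro x
    constructor
    · intro hx
      have h1 : x ∈ s • (⊤ : Submodule (MvPowerSeries (Fin N) (PowerSeries k)) M) :=
        (Submodule.Quotient.mk_eq_zero _).mp hx
      obtain ⟨y, -, hy⟩ := (Submodule.mem_smul_pointwise_iff_exists _ _ _).mp h1
      exact ⟨y, hy.symm⟩
    · rintro ⟨y, rfl⟩
      exact (Submodule.Quotient.mk_eq_zero _).mpr (Submodule.smul_mem_pointwise_smul _ _ _ Submodule.mem_top)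
  have hkill : ∀ (a : MvPowerSeries (Fin N) (PowerSeries k)), sp k a = 0 → ∀ z : QuotSMulTop s M, a • z = 0 := by
    intro a ha z
    obtain ⟨c, rfl⟩ := exists_of_sp_eq_zero a ha
    obtain ⟨x, rfl⟩ := hπ z
    rw [← map_smul, mul_smul, hker]
    exact ⟨c • x, rfl⟩
  have hkill2 : ∀ (a : MvPowerSeries (Fin N) (PowerSeries k)) (z : QuotSMulTop s M), sec k (sp k a) • z = a • z := by
    intro a z
    have h1 := hkill (sec k (sp k a) - a) (by rw [map_sub, sp_sec, sub_self]) z
    rw [sub_smul] at h1
    exact sub_eq_zero.mp h1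
  let inst₀ : Module (MvPowerSeries (Fin N) k) (QuotSMulTop s M) := Module.compHom _ (sec k)
  have hdef : ∀ (a : MvPowerSeries (Fin N) k) (z : QuotSMulTop s M), a • z = sec k a • z := fun _ _ => rfl
  have htow : IsScalarTower k (MvPowerSeries (Fin N) k) (QuotSMulTop s M) := by
    refine ⟨fun c a z => ?_⟩
    rw [hdef, hdef]
    have h1 : sec k (c • a) = c • sec k a := by
      rw [Algebra.smul_def, Algebra.smul_def, map_mul]
      congr 1
    rw [h1, smul_assoc]
  have hfin₀ : Module.Finite (MvPowerSeries (Fin N) k) (QuotSMulTop s M) := by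
    obtain ⟨S, hS⟩ := (inferInstance : Module.Finite (MvPowerSeries (Fin N) (PowerSeries k)) (QuotSMulTop s M)).fg_top
    refine ⟨⟨S, ?_⟩⟩
    rw [eq_top_iff]
    intro z _
    have hz : z ∈ Submodule.span (MvPowerSeries (Fin N) (PowerSeries k)) (S : Set (QuotSMulTop s M)) := by
      rw [hS]
      exact Submodule.mem_top
    induction hz using Submodule.span_induction with
    | mem x hx => exact Submodule.subset_span hx
    | zero => exact Submodule.zero_mem _
    | add x y _ _ hx hy => exact Submodule.add_mem _ (hx trivial) (hy trivial)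
    | smul a x _ hx =>
      rw [← hkill2 a x]
      exact Submodule.smul_mem _ (sp k a) (hx trivial)
  have hsmul : ∀ (a : MvPowerSeries (Fin N) (PowerSeries k)) (x : M), π (a • x) = sp k a • π x := by
    intro a x
    rw [map_smul, hdef, hkill2]
  have hcz : ∀ (F : Type u) [Field F], (k →+* F) → CharZero F := by
    intro F _ f
    exact charZero_of_injective_ringHom f.injective
  obtain ⟨K, hK⟩ := pow_smul_eq_zero (k := k) (O := MvPowerSeries (Fin N) (PowerSeries k))
    (V := QuotSMulTop s (M ⧸ Submodule.span (MvPowerSeries (Fin N) (PowerSeries k)) {b}))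
  refine rank_abstract π.toAddMonoidHom hπ hsmul (fun x => ?_) G ε hε hG0 b φ ψ hψφ hφψ ?_ ?_ K ?_ r ?_ ?_
  · refine (hker x).trans ?_
    simp only [hX]
  · intro p _ lam hlam hGp
    have : CharZero p.ResidueField := hcz _ ((algebraMap (MvPowerSeries (Fin N) (PowerSeries k)) p.ResidueField).comp
      (algebraMap k (MvPowerSeries (Fin N) (PowerSeries k))))
    have h1 := hE p.ResidueField lam (Ideal.algebraMap_residueField_eq_zero.mpr hGp)
    rw [h1] at hlam
    exact zero_ne_one hlam
  · intro p _ lam hlam hGp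
    have : CharZero p.ResidueField := hcz _ ((algebraMap (MvPowerSeries (Fin N) k) p.ResidueField).comp
      (algebraMap k (MvPowerSeries (Fin N) k)))
    let algF : Algebra (MvPowerSeries (Fin N) (PowerSeries k)) p.ResidueField :=
      ((algebraMap (MvPowerSeries (Fin N) k) p.ResidueField).comp (sp k)).toAlgebra
    let lam' : M →ₗ[MvPowerSeries (Fin N) (PowerSeries k)] p.ResidueField :=
      { toFun := fun x => lam (π x)
        map_add' := fun x y => by rw [map_add, map_add]
        map_smul' := fun a x => by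
          rw [hsmul, map_smul, RingHom.id_apply]
          rw [Algebra.smul_def, Algebra.smul_def]
          rfl }
    have h1 : lam' b = 0 := hE p.ResidueField lam' (Ideal.algebraMap_residueField_eq_zero.mpr hGp)
    have h2 : lam (π b) = 1 := hlam
    rw [show lam (π b) = 0 from h1] at h2
    exact zero_ne_one h2
  · intro u hu z
    obtain ⟨x, rfl⟩ := hπ z
    have h1 := hK (sec k u) (sec_pow K u hu)
      (Submodule.Quotient.mk (Submodule.Quotient.mk x))
    rw [← Submodule.Quotient.mk_smul, Submodule.Quotient.mk_eq_zero] at h1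
    obtain ⟨y', -, hy'⟩ := (Submodule.mem_smul_pointwise_iff_exists _ _ _).mp h1
    obtain ⟨y, rfl⟩ := Submodule.Quotient.mk_surjective _ y'
    rw [← Submodule.Quotient.mk_smul, ← Submodule.Quotient.mk_smul, Submodule.Quotient.eq] at hy'
    obtain ⟨a, ha⟩ := Submodule.mem_span_singleton.mp hy'
    refine ⟨sp k (-a), ?_⟩
    change sec k u • π x = sp k (-a) • π b
    rw [← map_smul, ← hsmul, neg_smul, ha, neg_sub, map_sub,
      (hker (s • y)).mpr ⟨y, rfl⟩, sub_zero]
  · intro x
    obtain ⟨a, ha⟩ := hr x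
    refine ⟨a, ?_⟩
    rw [← ha, hs, ← algebraMap_X, ← map_pow, algebraMap_smul]
  · intro h1 x hx
    refine hcore (fun i => ?_) x (by rw [← hX]; exact hx)
    obtain ⟨e, he⟩ := h1 i
    refine ⟨e, fun y => ?_⟩
    obtain ⟨y', hy'⟩ := he y
    exact ⟨y', by rw [hy', hX]⟩

end Pool.Agent.LibMC10
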